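import Mathlib

/-! Cycle spaces of edge sets: boundary, parity, delta. -/

set_option autoImplicit false

namespace Pool.Agent.K9h11.BN
open Finset
open Classical

variable {V : Type} [Fintype V]

/-- vectors of edges -/
abbrev W (V : Type) := Sym2 V → ZMod 2

/-- boundary -/
noncomputable def bd : W V →ₗ[ZMod 2] (V → ZMod 2) where
  toFun x v := ∑ e ∈ univ.filter (fun e : Sym2 V => v ∈ e), x e
  map_add' x y := by
    funext v
    simp [Finset.sum_add_distrib]
  map_smul' c x := by
    funext v
    simp [Finset.mul_sum]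

lemma bd_apply (x : W V) (v : V) : bd x v = ∑ e ∈ univ.filter (fun e : Sym2 V => v ∈ e), x e := rfl

/-- vectors supported in `E` -/
def Sup (E : Set (Sym2 V)) : Submodule (ZMod 2) (W V) where
  carrier := {x | ∀ e, e ∉ E → x e = 0}
  add_mem' := by
    intro a b ha hb e he
    simp [ha e he, hb e he]
  zero_mem' := by intro e _; rfl
  smul_mem' := by
    intro c x hx e he
    simp [hx e he]

lemma mem_Sup {E : Set (Sym2 V)} {x : W V} : x ∈ Sup E ↔ ∀ e, e ∉ E → x e = 0 := Iff.rfl

/-- the cycle space of the edge set `E` -/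
noncomputable def Cyc (E : Set (Sym2 V)) : Submodule (ZMod 2) (W V) := Sup E ⊓ LinearMap.ker bd

lemma mem_Cyc {E : Set (Sym2 V)} {x : W V} :
    x ∈ Cyc E ↔ (∀ e, e ∉ E → x e = 0) ∧ ∀ v, bd x v = 0 := by
  unfold Cyc
  rw [Submodule.mem_inf, mem_Sup, LinearMap.mem_ker]
  constructor
  · rintro ⟨h1, h2⟩
    exact ⟨h1, fun v => by rw [h2]; rfl⟩
  · rintro ⟨h1, h2⟩
    exact ⟨h1, funext h2⟩

lemma Cyc_mono {E F : Set (Sym2 V)} (h : E ⊆ F) : Cyc E ≤ Cyc F := by
  intro x hx
  rw [mem_Cyc] at hx ⊢
  exact ⟨fun e he => hx.1 e (fun h' => he (h h')), hx.2⟩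

lemma Sup_mono {E F : Set (Sym2 V)} (h : E ⊆ F) : Sup E ≤ Sup F := by
  intro x hx e he
  exact hx e (fun h' => he (h h'))

lemma two_cases (c : ZMod 2) : c = 0 ∨ c = 1 := by
  revert c; decide

lemma ne_zero_iff_one {c : ZMod 2} : c ≠ 0 ↔ c = 1 := by
  revert c; decide

lemma self_add (c : ZMod 2) : c + c = 0 := by revert c; decide

lemma self_add_v (x : W V) : x + x = 0 := by
  funext e; exact self_add _

/-- the unit vector of `e` -/
noncomputable def de (e : Sym2 V) : W V := Pi.single e 1

lemma de_apply (e f : Sym2 V) : de e f = if f = e then 1 else 0 := by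
  unfold de
  rw [Pi.single_apply]

/-- the indicator of a vertex -/
noncomputable def iv (a : V) : V → ZMod 2 := Pi.single a 1

lemma iv_apply (a v : V) : iv a v = if v = a then 1 else 0 := by
  unfold iv
  rw [Pi.single_apply]

lemma bd_de {a b : V} (h : a ≠ b) : bd (de s(a, b)) = iv a + iv b := by
  funext v
  rw [bd_apply, Pi.add_apply, iv_apply, iv_apply]
  have h1 : ∀ e ∈ univ.filter (fun e : Sym2 V => v ∈ e), de s(a, b) e = if e = s(a, b) then 1 else 0 :=
    fun e _ => de_apply _ _
  rw [Finset.sum_congr rfl h1, Finset.sum_ite_eq']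
  simp only [mem_filter, mem_univ, true_and, Sym2.mem_iff]
  by_cases h2 : v = a
  · subst h2
    simp [h]
  · by_cases h3 : v = b
    · subst h3
      simp [h2]
    · simp [h2, h3]

lemma de_mem {E : Set (Sym2 V)} {e : Sym2 V} (he : e ∈ E) : de e ∈ Sup E := by
  intro f hf
  rw [de_apply, if_neg]
  rintro rfl
  exact hf he

/-- parity: the sum of the boundary over a union of components vanishes -/
lemma parity {E : Set (Sym2 V)} (hE : ∀ e ∈ E, ¬ e.IsDiag) {x : W V} (hx : x ∈ Sup E)
    (K : Finset V) (hK : ∀ a b, s(a, b) ∈ E → (a ∈ K ↔ b ∈ K)) : ∑ v ∈ K, bd x v = 0 := by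
  have h1 : ∑ v ∈ K, bd x v = ∑ e : Sym2 V, ∑ v ∈ K.filter (fun v => v ∈ e), x e := by
    simp only [bd_apply]
    rw [Finset.sum_comm' (t' := univ) (s' := fun e => K.filter (fun v => v ∈ e))]
    intro v e
    simp
  rw [h1]
  apply Finset.sum_eq_zero
  intro e _
  by_cases he : e ∈ E
  · rw [Finset.sum_const]
    induction e with
    | _ a b =>
      have hd := hE _ he
      rw [Sym2.mk_isDiag_iff] at hd
      have h2 := hK a b he
      by_cases ha : a ∈ K
      · have hb := h2.1 ha
        have h3 : K.filter (fun v => v ∈ s(a, b)) = {a, b} := by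
          ext v
          simp only [mem_filter, Sym2.mem_iff, mem_insert, mem_singleton]
          constructor
          · exact fun h => h.2
          · rintro (rfl | rfl)
            · exact ⟨ha, Or.inl rfl⟩
            · exact ⟨hb, Or.inr rfl⟩
        rw [h3, Finset.card_pair hd]
        rw [two_smul]
        exact self_add _
      · have hb : b ∉ K := fun h => ha (h2.2 h)
        have h3 : K.filter (fun v => v ∈ s(a, b)) = ∅ := by
          rw [Finset.filter_eq_empty_iff]
          intro v hv h4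
          rw [Sym2.mem_iff] at h4
          rcases h4 with rfl | rfl
          · exact ha hv
          · exact hb hv
        rw [h3]
        simp
  · rw [hx e he]
    simp

/-- a finite family of vectors as a basis with small ply -/
def HasPly (Z : Submodule (ZMod 2) (W V)) (m : ℕ) : Prop :=
  ∃ B : Finset (W V), LinearIndependent (ZMod 2) (fun x : B => (x : W V)) ∧
    Submodule.span (ZMod 2) (B : Set (W V)) = Z ∧
    ∀ e : Sym2 V, (B.filter (fun x => x e ≠ 0)).card ≤ m

/-- a spanning family -/
def SpanPly (Z : Submodule (ZMod 2) (W V)) (m : ℕ) : Prop :=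
  ∃ B : Finset (W V), Submodule.span (ZMod 2) (B : Set (W V)) = Z ∧
    ∀ e : Sym2 V, (B.filter (fun x => x e ≠ 0)).card ≤ m

lemma SpanPly.basis {Z : Submodule (ZMod 2) (W V)} {m : ℕ} (h : SpanPly Z m) : HasPly Z m := by
  obtain ⟨B, hB, hm⟩ := h
  obtain ⟨b, hb1, hb2, hb3⟩ := exists_linearIndependent (ZMod 2) (B : Set (W V))
  have hfin : b.Finite := (Finset.finite_toSet B).subset hb1
  refine ⟨hfin.toFinset, ?_, ?_, fun e => ?_⟩
  · have h4 : ∀ x : W V, x ∈ hfin.toFinset ↔ x ∈ b := fun x => Set.Finite.mem_toFinset _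
    let f : hfin.toFinset → b := fun x => ⟨x.1, (h4 _).1 x.2⟩
    have hf : Function.Injective f := by
      intro x y hxy
      have := congrArg (fun z : b => (z : W V)) hxy
      exact Subtype.ext this
    exact hb3.comp f hf
  · rw [Set.Finite.coe_toFinset, hb2, hB]
  · refine (Finset.card_le_card ?_).trans (hm e)
    intro x hx
    rw [mem_filter] at hx ⊢
    exact ⟨hb1 ((Set.Finite.mem_toFinset _).1 hx.1), hx.2⟩

end Pool.Agent.K9h11.BN
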