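import Pool.Agent.K9h11.BN.A

/-! Two-sided echelon families, and the number of their members through an edge. -/

set_option autoImplicit false

namespace Pool.Agent.K9h11.BN
open Finset
open Classical

variable {V : Type} [Fintype V]

/-- the largest rank in the support -/
noncomputable def hi (r : Sym2 V → ℕ) (x : W V) : ℕ := (univ.filter (fun e => x e ≠ 0)).sup r

lemma le_hi (r : Sym2 V → ℕ) {x : W V} {e : Sym2 V} (h : x e ≠ 0) : r e ≤ hi r x :=
  Finset.le_sup (f := r) (by simp [h])

lemma hi_mem (r : Sym2 V → ℕ) {x : W V} (h : x ≠ 0) : ∃ e, x e ≠ 0 ∧ r e = hi r x := by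
  have h1 : (univ.filter (fun e => x e ≠ 0)).Nonempty := by
    by_contra hcon
    rw [Finset.not_nonempty_iff_eq_empty, Finset.filter_eq_empty_iff] at hcon
    apply h
    funext e
    have := hcon (mem_univ e)
    simpa using this
  obtain ⟨e, he, he2⟩ := Finset.exists_mem_eq_sup _ h1 r
  exact ⟨e, (mem_filter.1 he).2, he2.symm⟩

lemma hi_add_le (r : Sym2 V → ℕ) (x y : W V) : hi r (x + y) ≤ max (hi r x) (hi r y) := by
  unfold hi
  apply Finset.sup_le
  intro e he
  rw [mem_filter] at he
  by_cases h : x e = 0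
  · have : y e ≠ 0 := by
      intro h2
      apply he.2
      simp [h, h2]
    exact (le_hi r this).trans (le_max_right _ _)
  · exact (le_hi r h).trans (le_max_left _ _)

lemma hi_add_lt {r : Sym2 V → ℕ} (hr : Function.Injective r) {x y : W V} (hx : x ≠ 0)
    (hy : y ≠ 0) (hxy : x ≠ y) (h : hi r x = hi r y) : hi r (x + y) < hi r x := by
  have h0 : x + y ≠ 0 := by
    intro h1
    apply hxy
    have : x + y + y = y := by rw [h1, zero_add]
    rw [add_assoc, self_add_v, add_zero] at this
    exact this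
  obtain ⟨e, he, he2⟩ := hi_mem r h0
  have h1 : hi r (x + y) ≤ hi r x := by
    have := hi_add_le r x y
    rw [← h, max_self] at this
    exact this
  rcases h1.lt_or_eq with h2 | h2
  · exact h2
  · exfalso
    obtain ⟨a, ha, ha2⟩ := hi_mem r hx
    obtain ⟨b, hb, hb2⟩ := hi_mem r hy
    have e1 : e = a := hr (by rw [he2, h2, ha2])
    have e2 : e = b := hr (by rw [he2, h2, h, hb2])
    subst e1
    subst e2
    apply he
    rw [Pi.add_apply, ne_zero_iff_one.1 ha, ne_zero_iff_one.1 hb]
    exact self_add _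

/-- weight -/
noncomputable def wt (r r' : Sym2 V → ℕ) (x : W V) : ℕ := hi r x + hi r' x + 1

/-- replacing `x` by `x + y` keeps the span -/
lemma span_replace (S : Finset (W V)) {x y : W V} (hx : x ∈ S) (hy : y ∈ S) (hxy : x ≠ y) :
    Submodule.span (ZMod 2) ((insert (x + y) (S.erase x) : Finset (W V)) : Set (W V)) =
      Submodule.span (ZMod 2) (S : Set (W V)) := by
  have hy' : y ∈ S.erase x := mem_erase.2 ⟨hxy.symm, hy⟩
  apply le_antisymm
  · rw [Submodule.span_le]
    intro z hz
    rw [Finset.mem_coe, mem_insert] at hz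
    rcases hz with rfl | hz
    · exact Submodule.add_mem _ (Submodule.subset_span (by exact_mod_cast hx))
        (Submodule.subset_span (by exact_mod_cast hy))
    · exact Submodule.subset_span (by exact_mod_cast (mem_of_mem_erase hz))
  · rw [Submodule.span_le]
    intro z hz
    rw [Finset.mem_coe] at hz
    by_cases hzx : z = x
    · subst hzx
      have h1 : (z + y) + y = z := by rw [add_assoc, self_add_v, add_zero]
      have a1 : z + y ∈ Submodule.span (ZMod 2)
          ((insert (z + y) (S.erase z) : Finset (W V)) : Set (W V)) :=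
        Submodule.subset_span (Finset.mem_coe.2 (mem_insert_self _ _))
      have a2 : y ∈ Submodule.span (ZMod 2)
          ((insert (z + y) (S.erase z) : Finset (W V)) : Set (W V)) :=
        Submodule.subset_span (Finset.mem_coe.2 (mem_insert_of_mem hy'))
      have a3 := Submodule.add_mem _ a1 a2
      rw [h1] at a3
      exact a3
    · exact Submodule.subset_span (by
        rw [Finset.mem_coe]; exact mem_insert_of_mem (mem_erase.2 ⟨hzx, hz⟩))

lemma span_erase_zero (S : Finset (W V)) :
    Submodule.span (ZMod 2) ((S.erase 0 : Finset (W V)) : Set (W V)) =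
      Submodule.span (ZMod 2) (S : Set (W V)) := by
  rw [Finset.coe_erase]
  exact Submodule.span_sdiff_singleton_zero

/-- the two-sided echelon family -/
theorem echelon (Z : Submodule (ZMod 2) (W V)) (r r' : Sym2 V → ℕ) (hr : Function.Injective r)
    (hr' : Function.Injective r') : ∃ S : Finset (W V),
      Submodule.span (ZMod 2) (S : Set (W V)) = Z ∧ (0 : W V) ∉ S ∧
      (∀ x ∈ S, ∀ y ∈ S, hi r x = hi r y → x = y) ∧
      (∀ x ∈ S, ∀ y ∈ S, hi r' x = hi r' y → x = y) := by
  obtain ⟨S, hS, hmin⟩ := Finset.exists_min_image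
    (univ.filter fun S : Finset (W V) => Submodule.span (ZMod 2) (S : Set (W V)) = Z)
    (fun S => ∑ x ∈ S, wt r r' x) ⟨univ.filter (fun x => x ∈ Z), by
      rw [mem_filter]
      refine ⟨mem_univ _, ?_⟩
      have : ((univ.filter (fun x => x ∈ Z) : Finset (W V)) : Set (W V)) = Z := by
        ext x; simp
      rw [this]
      exact Submodule.span_eq Z⟩
  rw [mem_filter] at hS
  have hS1 := hS.2
  have hmin' : ∀ T : Finset (W V), Submodule.span (ZMod 2) (T : Set (W V)) = Z →
      ∑ x ∈ S, wt r r' x ≤ ∑ x ∈ T, wt r r' x := fun T hT => hmin T (by simp [hT])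
  have h0 : (0 : W V) ∉ S := by
    intro h
    have h1 := hmin' (S.erase 0) (by rw [span_erase_zero, hS1])
    have h2 := Finset.add_sum_erase S (wt r r') h
    have h3 : 1 ≤ wt r r' (0 : W V) := Nat.le_add_left _ _
    omega
  have key : ∀ x ∈ S, ∀ y ∈ S, x ≠ y → wt r r' (x + y) < wt r r' x → False := by
    intro x hx y hy hxy hlt
    have h1 := hmin' (insert (x + y) (S.erase x)) (by rw [span_replace S hx hy hxy, hS1])
    have h2 := Finset.add_sum_erase S (wt r r') hx
    have h3 : ∑ z ∈ insert (x + y) (S.erase x), wt r r' z ≤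
        wt r r' (x + y) + ∑ z ∈ S.erase x, wt r r' z := by
      by_cases hm : x + y ∈ S.erase x
      · rw [Finset.insert_eq_self.2 hm]
        exact Nat.le_add_left _ _
      · rw [Finset.sum_insert hm]
    omega
  refine ⟨S, hS1, h0, ?_, ?_⟩
  · intro x hx y hy h
    by_contra hxy
    have hx0 : x ≠ 0 := fun h1 => h0 (h1 ▸ hx)
    have hy0 : y ≠ 0 := fun h1 => h0 (h1 ▸ hy)
    rcases le_total (hi r' y) (hi r' x) with h1 | h1
    · apply key x hx y hy hxy
      have h2 := hi_add_lt hr hx0 hy0 hxy h
      have h3 := hi_add_le r' x y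
      rw [max_eq_left h1] at h3
      unfold wt
      omega
    · apply key y hy x hx (Ne.symm hxy)
      have h2 := hi_add_lt hr hy0 hx0 (Ne.symm hxy) h.symm
      have h3 := hi_add_le r' y x
      rw [max_eq_left h1] at h3
      unfold wt
      omega
  · intro x hx y hy h
    by_contra hxy
    have hx0 : x ≠ 0 := fun h1 => h0 (h1 ▸ hx)
    have hy0 : y ≠ 0 := fun h1 => h0 (h1 ▸ hy)
    rcases le_total (hi r y) (hi r x) with h1 | h1
    · apply key x hx y hy hxy
      have h2 := hi_add_lt hr' hx0 hy0 hxy h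
      have h3 := hi_add_le r x y
      rw [max_eq_left h1] at h3
      unfold wt
      omega
    · apply key y hy x hx (Ne.symm hxy)
      have h2 := hi_add_lt hr' hy0 hx0 (Ne.symm hxy) h.symm
      have h3 := hi_add_le r y x
      rw [max_eq_left h1] at h3
      unfold wt
      omega

/-- the leading coordinate of a sum -/
lemma lead {r : Sym2 V → ℕ} {S : Finset (W V)} (h0 : (0 : W V) ∉ S)
    (hS : ∀ x ∈ S, ∀ y ∈ S, hi r x = hi r y → x = y) {A : Finset (W V)} (hA : A ⊆ S)
    (hne : A.Nonempty) : ∃ e, (∑ x ∈ A, x) e ≠ 0 ∧ ∀ x ∈ A, hi r x ≤ r e := by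
  obtain ⟨y, hy, hmax⟩ := Finset.exists_max_image A (hi r) hne
  have hy0 : y ≠ 0 := fun h1 => h0 (h1 ▸ hA hy)
  obtain ⟨e, he, he2⟩ := hi_mem r hy0
  refine ⟨e, ?_, fun x hx => by rw [he2]; exact hmax x hx⟩
  rw [Finset.sum_apply, Finset.sum_eq_single y]
  · exact he
  · intro x hx hxy
    by_contra h1
    have h2 := le_hi r h1
    have h3 := hmax x hx
    rw [he2] at h2
    exact hxy (hS x (hA hx) y (hA hy) (le_antisymm h3 h2))
  · intro h; exact absurd hy h

lemma mem_span_sum {S : Finset (W V)} {z : W V}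
    (hz : z ∈ Submodule.span (ZMod 2) (S : Set (W V))) : ∃ A ⊆ S, z = ∑ x ∈ A, x := by
  rw [Submodule.mem_span_finset] at hz
  obtain ⟨f, -, hf⟩ := hz
  refine ⟨S.filter (fun x => f x ≠ 0), Finset.filter_subset _ _, ?_⟩
  rw [← hf, Finset.sum_filter]
  apply Finset.sum_congr rfl
  intro x _
  rcases two_cases (f x) with h | h
  · rw [h]; simp
  · rw [h]; simp

end Pool.Agent.K9h11.BN
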