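import Pool.Agent.K9h11.BN.B

/-! The number of members of a two-sided echelon family through an edge. -/

set_option autoImplicit false

namespace Pool.Agent.K9h11.BN
open Finset
open Classical

variable {V : Type} [Fintype V]

/-- the part of smaller rank -/
noncomputable def cut (r : Sym2 V → ℕ) (e0 : Sym2 V) : W V →ₗ[ZMod 2] W V where
  toFun z e := if r e < r e0 then z e else 0
  map_add' x y := by
    funext e
    by_cases h : r e < r e0 <;> simp [h]
  map_smul' c x := by
    funext e
    by_cases h : r e < r e0 <;> simp [h]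

lemma cut_apply (r : Sym2 V → ℕ) (e0 : Sym2 V) (z : W V) (e : Sym2 V) :
    cut r e0 z e = if r e < r e0 then z e else 0 := rfl

theorem cross {E : Set (Sym2 V)} (hE : ∀ e ∈ E, ¬ e.IsDiag) {r : Sym2 V → ℕ}
    (hr : Function.Injective r) {M : ℕ} (hM : ∀ e, r e ≤ M) {S : Finset (W V)}
    (hspan : Submodule.span (ZMod 2) (S : Set (W V)) = Cyc E) (h0 : (0 : W V) ∉ S)
    (h1 : ∀ x ∈ S, ∀ y ∈ S, hi r x = hi r y → x = y)
    (h2 : ∀ x ∈ S, ∀ y ∈ S, hi (fun e => M - r e) x = hi (fun e => M - r e) y → x = y)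
    (B : Finset V) (hBn : B.Nonempty) (e0 : Sym2 V)
    (hB : ∀ v, (∃ e ∈ E, v ∈ e ∧ r e < r e0) → (∃ e ∈ E, v ∈ e ∧ r e0 ≤ r e) → v ∈ B) :
    (S.filter (fun x => x e0 ≠ 0)).card ≤ B.card := by
  by_contra hcard
  rw [not_le] at hcard
  obtain ⟨b0, hb0⟩ := hBn
  obtain ⟨J, hJ⟩ : ∃ J, J = S.filter (fun x => x e0 ≠ 0) := ⟨_, rfl⟩
  rw [← hJ] at hcard
  let L1 : (J → ZMod 2) →ₗ[ZMod 2] W V :=
    { toFun := fun c => ∑ x : J, c x • (x : W V)
      map_add' := fun c d => by simp [add_smul, Finset.sum_add_distrib]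
      map_smul' := fun a c => by simp [Finset.smul_sum, mul_smul] }
  let L2 : W V →ₗ[ZMod 2] (({v // v ∈ B.erase b0} → ZMod 2) × ZMod 2) :=
    LinearMap.prod (LinearMap.pi (fun v : {v // v ∈ B.erase b0} =>
      (LinearMap.proj v.1).comp (bd.comp (cut r e0)))) (LinearMap.proj e0)
  have hfr : Module.finrank (ZMod 2) (({v // v ∈ B.erase b0} → ZMod 2) × ZMod 2) <
      Module.finrank (ZMod 2) (J → ZMod 2) := by
    rw [Module.finrank_prod, Module.finrank_fintype_fun_eq_card,
      Module.finrank_fintype_fun_eq_card, Module.finrank_self, Fintype.card_coe, Fintype.card_coe,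
      Finset.card_erase_of_mem hb0]
    have : 0 < B.card := Finset.card_pos.2 ⟨b0, hb0⟩
    omega
  have hker := LinearMap.ker_ne_bot_of_finrank_lt (f := L2.comp L1) hfr
  obtain ⟨c, hc, hc0⟩ := Submodule.exists_mem_ne_zero_of_ne_bot hker
  rw [LinearMap.mem_ker, LinearMap.comp_apply] at hc
  obtain ⟨z, hz⟩ : ∃ z, z = L1 c := ⟨_, rfl⟩
  rw [← hz] at hc
  have hc1 : ∀ v ∈ B, v ≠ b0 → bd (cut r e0 z) v = 0 := by
    intro v hv hvb
    have := congrArg (fun p => p.1 ⟨v, mem_erase.2 ⟨hvb, hv⟩⟩) hc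
    exact this
  have hc2 : z e0 = 0 := by
    have := congrArg (fun p => p.2) hc
    exact this
  -- the set `A`
  obtain ⟨A, hA⟩ : ∃ A : Finset (W V), A = (univ.filter (fun x : J => c x ≠ 0)).map
    ⟨Subtype.val, Subtype.val_injective⟩ := ⟨_, rfl⟩
  have hzA : z = ∑ x ∈ A, x := by
    rw [hA, Finset.sum_map, Finset.sum_filter, hz]
    show ∑ x : J, c x • (x : W V) = _
    apply Finset.sum_congr rfl
    intro x _
    rcases two_cases (c x) with h | h
    · rw [h]; simp
    · rw [h]; simp
  have hAJ : A ⊆ J := by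
    intro x hx
    rw [hA, mem_map] at hx
    obtain ⟨y, -, rfl⟩ := hx
    exact y.2
  have hAn : A.Nonempty := by
    by_contra hcon
    rw [Finset.not_nonempty_iff_eq_empty, hA, Finset.map_eq_empty, Finset.filter_eq_empty_iff] at hcon
    apply hc0
    funext x
    have := hcon (mem_univ x)
    simpa using this
  have hJS : J ⊆ S := by rw [hJ]; exact Finset.filter_subset _ _
  have hzE : z ∈ Cyc E := by
    rw [hzA, ← hspan]
    exact Submodule.sum_mem _ fun x hx => Submodule.subset_span (by exact_mod_cast hJS (hAJ hx))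
  have hzE' := mem_Cyc.1 hzE
  -- the lower part is a cycle
  obtain ⟨z1, hz1⟩ : ∃ z1, z1 = cut r e0 z := ⟨_, rfl⟩
  have hz1s : z1 ∈ Sup E := by
    intro e he
    rw [hz1, cut_apply, hzE'.1 e he, ite_self]
  have hz1o : ∀ v, v ≠ b0 → bd z1 v = 0 := by
    intro v hv
    by_cases hvB : v ∈ B
    · rw [hz1]; exact hc1 v hvB hv
    · by_cases hex : ∃ e ∈ E, v ∈ e ∧ r e < r e0
      · have hno : ¬ ∃ e ∈ E, v ∈ e ∧ r e0 ≤ r e := fun h => hvB (hB v hex h)
        rw [← hzE'.2 v, bd_apply, bd_apply]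
        apply Finset.sum_congr rfl
        intro e he
        rw [mem_filter] at he
        rw [hz1, cut_apply]
        split_ifs with h
        · rfl
        · symm
          by_contra h3
          apply hno
          refine ⟨e, ?_, he.2, not_lt.1 h⟩
          by_contra h4
          exact h3 (hzE'.1 e h4)
      · rw [bd_apply]
        apply Finset.sum_eq_zero
        intro e he
        rw [mem_filter] at he
        rw [hz1, cut_apply]
        split_ifs with h
        · by_contra h3
          apply hex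
          refine ⟨e, ?_, he.2, h⟩
          by_contra h4
          exact h3 (hzE'.1 e h4)
        · rfl
  have hz1b : bd z1 b0 = 0 := by
    have h3 := parity hE hz1s univ (fun a b _ => by simp)
    rw [Finset.sum_eq_single b0 (fun v _ hv => hz1o v hv) (fun h => absurd (mem_univ _) h)] at h3
    exact h3
  have hz1c : z1 ∈ Cyc E := by
    rw [mem_Cyc]
    refine ⟨hz1s, fun v => ?_⟩
    by_cases hv : v = b0
    · rw [hv]; exact hz1b
    · exact hz1o v hv
  obtain ⟨z2, hz2⟩ : ∃ z2, z2 = z + z1 := ⟨_, rfl⟩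
  have hz2c : z2 ∈ Cyc E := by rw [hz2]; exact Submodule.add_mem _ hzE hz1c
  rw [← hspan] at hz1c hz2c
  obtain ⟨A1, hA1, hA1z⟩ := mem_span_sum hz1c
  obtain ⟨A2, hA2, hA2z⟩ := mem_span_sum hz2c
  have q1 : ∀ x ∈ A1, hi r x < r e0 := by
    intro x hx
    obtain ⟨e, he, he2⟩ := lead h0 h1 hA1 ⟨x, hx⟩
    rw [← hA1z, hz1, cut_apply] at he
    have h5 : r e < r e0 := by
      by_contra h
      exact he (if_neg h)
    exact (he2 x hx).trans_lt h5
  have q2 : ∀ x ∈ A2, hi (fun e => M - r e) x < M - r e0 := by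
    intro x hx
    obtain ⟨e, he, he2⟩ := lead h0 h2 hA2 ⟨x, hx⟩
    rw [← hA2z, hz2, hz1, Pi.add_apply, cut_apply] at he
    have h5 : r e0 < r e := by
      by_contra h
      rw [not_lt] at h
      rcases h.lt_or_eq with h6 | h6
      · rw [if_pos h6, self_add] at he
        exact he rfl
      · have h7 : e = e0 := hr h6
        subst h7
        rw [hc2, if_neg (lt_irrefl _), add_zero] at he
        exact he rfl
    refine (he2 x hx).trans_lt ?_
    have h8 := hM e
    show M - r e < M - r e0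
    omega
  have q3 : ∀ x ∈ A, r e0 ≤ hi r x ∧ M - r e0 ≤ hi (fun e => M - r e) x := by
    intro x hx
    have h5 := hAJ hx
    rw [hJ, mem_filter] at h5
    exact ⟨le_hi r h5.2, le_hi (fun e => M - r e) h5.2⟩
  have d12 : Disjoint A1 A2 := by
    rw [Finset.disjoint_left]
    intro x hx hx2
    have g1 := q1 x hx
    have g2 := q2 x hx2
    have hx0 : x ≠ 0 := fun h => h0 (h ▸ hA1 hx)
    obtain ⟨e, he, he2⟩ := hi_mem r hx0
    have g3 : M - r e ≤ hi (fun e => M - r e) x := le_hi (fun e => M - r e) he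
    have g4 := hM e
    have g5 := hM e0
    omega
  have d3 : Disjoint A (A1 ∪ A2) := by
    rw [Finset.disjoint_left]
    intro x hx hx2
    have g1 := q3 x hx
    rw [mem_union] at hx2
    rcases hx2 with g | g
    · have := q1 x g
      omega
    · have := q2 x g
      omega
  have hT : A ∪ (A1 ∪ A2) ⊆ S :=
    Finset.union_subset (hAJ.trans hJS) (Finset.union_subset hA1 hA2)
  obtain ⟨e, he, -⟩ := lead h0 h1 hT (hAn.mono Finset.subset_union_left)
  apply he
  rw [Finset.sum_union d3, Finset.sum_union d12, ← hzA, ← hA1z, ← hA2z, hz2]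
  have h9 : z + (z1 + (z + z1)) = (z + z1) + (z + z1) := by abel
  rw [h9, self_add_v]
  rfl

/-- small graphs, and more generally bags along an ordering -/
theorem small {E : Set (Sym2 V)} (hE : ∀ e ∈ E, ¬ e.IsDiag) {B : Finset V}
    (hEB : ∀ e ∈ E, ∀ v ∈ e, v ∈ B) : SpanPly (Cyc E) B.card := by
  by_cases hBn : B.Nonempty
  · obtain ⟨r, hr⟩ : ∃ r : Sym2 V → ℕ, Function.Injective r :=
      ⟨fun e => (Fintype.equivFin (Sym2 V) e : ℕ), fun a b h =>
        (Fintype.equivFin (Sym2 V)).injective (Fin.ext h)⟩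
    obtain ⟨M, hM⟩ : ∃ M, ∀ e, r e ≤ M := ⟨univ.sup r, fun e => Finset.le_sup (mem_univ e)⟩
    have hr' : Function.Injective (fun e => M - r e) := by
      intro a b h
      have h1 := hM a
      have h2 := hM b
      have h3 : M - r a = M - r b := h
      exact hr (by omega)
    obtain ⟨S, hS1, hS2, hS3, hS4⟩ := echelon (Cyc E) r (fun e => M - r e) hr hr'
    refine ⟨S, hS1, fun e0 => cross hE hr hM hS1 hS2 hS3 hS4 B hBn e0 ?_⟩
    rintro v ⟨e, he, hv, -⟩ -
    exact hEB e he v hv
  · refine ⟨∅, ?_, fun e => by simp⟩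
    rw [Finset.not_nonempty_iff_eq_empty] at hBn
    have : Cyc E = ⊥ := by
      rw [eq_bot_iff]
      intro x hx
      rw [mem_Cyc] at hx
      rw [Submodule.mem_bot]
      funext e
      apply hx.1
      intro he
      induction e with
      | _ a b =>
        have := hEB _ he a (Sym2.mem_mk_left a b)
        rw [hBn] at this
        exact absurd this (Finset.notMem_empty _)
    rw [this]
    simp

end Pool.Agent.K9h11.BN
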