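import Pool.Agent.K9h11.BN.C

/-! Relative cycles of an edge set with boundary in a given set of vertices. -/

set_option autoImplicit false

namespace Pool.Agent.K9h11.BN
open Finset
open Classical

variable {V : Type} [Fintype V]

/-- there is a vector of edges in `E` with the boundary `{a, b}` -/
def conn (E : Set (Sym2 V)) (a b : V) : Prop := ∃ q ∈ Sup E, bd q = iv a + iv b

lemma self_add_iv (x : V → ZMod 2) : x + x = 0 := by
  funext e; exact self_add _

lemma conn_refl (E : Set (Sym2 V)) (a : V) : conn E a a :=
  ⟨0, Submodule.zero_mem _, by rw [map_zero, self_add_iv]⟩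

lemma conn_symm {E : Set (Sym2 V)} {a b : V} (h : conn E a b) : conn E b a := by
  obtain ⟨q, h1, h2⟩ := h
  exact ⟨q, h1, by rw [h2, add_comm]⟩

lemma conn_trans {E : Set (Sym2 V)} {a b c : V} (h : conn E a b) (h' : conn E b c) :
    conn E a c := by
  obtain ⟨q, h1, h2⟩ := h
  obtain ⟨q', h1', h2'⟩ := h'
  refine ⟨q + q', Submodule.add_mem _ h1 h1', ?_⟩
  rw [map_add, h2, h2']
  have : iv a + iv b + (iv b + iv c) = iv a + iv c + (iv b + iv b) := by abel
  rw [this, self_add_iv, add_zero]

lemma conn_edge {E : Set (Sym2 V)} (hE : ∀ e ∈ E, ¬ e.IsDiag) {a b : V} (h : s(a, b) ∈ E) :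
    conn E a b := by
  have h1 := hE _ h
  rw [Sym2.mk_isDiag_iff] at h1
  exact ⟨de s(a, b), de_mem h, bd_de h1⟩

theorem rel {E : Set (Sym2 V)} (hE : ∀ e ∈ E, ¬ e.IsDiag) (S : Finset V) :
    ∃ (J : Finset (Sym2 V)) (p : Sym2 V → W V), J.card ≤ S.card - 1 ∧
      (∀ κ ∈ J, ∃ a ∈ S, ∃ b ∈ S, a ≠ b ∧ κ = s(a, b)) ∧
      (∀ κ ∈ J, p κ ∈ Sup E ∧ bd (p κ) = bd (de κ)) ∧
      ∀ y ∈ Sup E, (∀ v, bd y v ≠ 0 → v ∈ S) →
        y ∈ Cyc E ⊔ Submodule.span (ZMod 2) (p '' (J : Set (Sym2 V))) := by
  obtain ⟨r, hr⟩ : ∃ r : V → ℕ, Function.Injective r :=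
    ⟨fun e => (Fintype.equivFin V e : ℕ), fun a b h =>
      (Fintype.equivFin V).injective (Fin.ext h)⟩
  -- the vertices with a predecessor
  obtain ⟨S', hS'⟩ : ∃ S', S' = S.filter (fun s => ∃ a ∈ S, r a < r s ∧ conn E a s) := ⟨_, rfl⟩
  have hprev : ∀ s : V, ∃ a : V, s ∈ S' → (a ∈ S ∧ r a < r s ∧ conn E a s ∧
      ∀ c ∈ S, r c < r s → conn E c s → r c ≤ r a) := by
    intro s
    by_cases hs : s ∈ S'
    · have hs2 := hs
      rw [hS', mem_filter] at hs2
      obtain ⟨a, ha, ha2, ha3⟩ := hs2.2
      obtain ⟨a', ha', hmax⟩ := Finset.exists_max_image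
        (S.filter (fun a => r a < r s ∧ conn E a s)) r ⟨a, by simp [ha, ha2, ha3]⟩
      rw [mem_filter] at ha'
      exact ⟨a', fun _ => ⟨ha'.1, ha'.2.1, ha'.2.2, fun c hc1 hc2 hc3 =>
        hmax c (by simp [hc1, hc2, hc3])⟩⟩
    · exact ⟨s, fun h => absurd h hs⟩
  choose prev hprev using hprev
  obtain ⟨J, hJ⟩ : ∃ J : Finset (Sym2 V), J = S'.image (fun s => s(prev s, s)) := ⟨_, rfl⟩
  have hp : ∀ κ : Sym2 V, ∃ q : W V, κ ∈ J → (q ∈ Sup E ∧ bd q = bd (de κ)) := by
    intro κ
    by_cases hκ : κ ∈ J
    · have h1 := hκ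
      rw [hJ, mem_image] at h1
      obtain ⟨s, hs, rfl⟩ := h1
      obtain ⟨g1, g2, ⟨q, g3, g4⟩, -⟩ := hprev s hs
      refine ⟨q, fun _ => ⟨g3, ?_⟩⟩
      rw [g4, bd_de]
      rintro h
      rw [h] at g2
      exact lt_irrefl _ g2
    · exact ⟨0, fun h => absurd h hκ⟩
  choose p hp using hp
  refine ⟨J, p, ?_, ?_, hp, ?_⟩
  · rw [hJ]
    refine Finset.card_image_le.trans ?_
    by_cases hSn : S.Nonempty
    · obtain ⟨s0, hs0, hmin⟩ := Finset.exists_min_image S r hSn
      have h1 : S' ⊆ S.erase s0 := by
        intro s hs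
        rw [hS', mem_filter] at hs
        obtain ⟨h2, a, ha, ha2, -⟩ := hs
        refine mem_erase.2 ⟨?_, h2⟩
        rintro rfl
        have := hmin a ha
        omega
      have h3 := Finset.card_le_card h1
      rw [Finset.card_erase_of_mem hs0] at h3
      exact h3
    · rw [Finset.not_nonempty_iff_eq_empty] at hSn
      rw [hS', hSn]
      simp
  · intro κ hκ
    rw [hJ, mem_image] at hκ
    obtain ⟨s, hs, rfl⟩ := hκ
    obtain ⟨g1, g2, -, -⟩ := hprev s hs
    have h2 := hs
    rw [hS', mem_filter] at h2
    refine ⟨prev s, g1, s, h2.1, ?_, rfl⟩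
    rintro h
    rw [h] at g2
    exact lt_irrefl _ g2
  · -- strong induction
    have key : ∀ n : ℕ, ∀ y ∈ Sup E, (∀ v, bd y v ≠ 0 → v ∈ S) → (∀ v, bd y v ≠ 0 → r v < n) →
        y ∈ Cyc E ⊔ Submodule.span (ZMod 2) (p '' (J : Set (Sym2 V))) := by
      intro n
      induction n with
      | zero =>
        intro y hy h1 h2
        apply Submodule.mem_sup_left
        rw [mem_Cyc]
        refine ⟨hy, fun v => ?_⟩
        by_contra h
        exact absurd (h2 v h) (Nat.not_lt_zero _)
      | succ n ih =>
        intro y hy h1 h2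
        by_cases hex : ∃ s, bd y s ≠ 0 ∧ r s = n
        · obtain ⟨s, hs, hsn⟩ := hex
          -- another odd vertex in the component
          have hpar := parity hE hy (univ.filter (fun v => conn E v s)) (by
            intro a b hab
            simp only [mem_filter, mem_univ, true_and]
            exact ⟨fun h => conn_trans (conn_symm (conn_edge hE hab)) h,
              fun h => conn_trans (conn_edge hE hab) h⟩)
          obtain ⟨a, ha1, ha2, ha3⟩ : ∃ a, a ≠ s ∧ conn E a s ∧ bd y a ≠ 0 := by
            by_contra hcon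
            push Not at hcon
            rw [Finset.sum_eq_single s] at hpar
            · exact hs hpar
            · intro v hv hvs
              rw [mem_filter] at hv
              exact hcon v hvs hv.2
            · intro h
              exact absurd (by simp [conn_refl]) h
          have hra : r a < r s := by
            have g1 := h2 a ha3
            have g2 : r a ≠ r s := fun h => ha1 (hr h)
            omega
          have hsS' : s ∈ S' := by
            rw [hS', mem_filter]
            exact ⟨h1 s hs, a, h1 a ha3, hra, ha2⟩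
          obtain ⟨g1, g2, g3, -⟩ := hprev s hsS'
          have hκ : s(prev s, s) ∈ J := by
            rw [hJ, mem_image]
            exact ⟨s, hsS', rfl⟩
          obtain ⟨g4, g5⟩ := hp _ hκ
          have hne : prev s ≠ s := by
            rintro h
            rw [h] at g2
            exact lt_irrefl _ g2
          rw [bd_de hne] at g5
          have hval : ∀ v, bd (y + p s(prev s, s)) v =
              bd y v + ((if v = prev s then 1 else 0) + (if v = s then 1 else 0)) := by
            intro v
            rw [map_add, g5, Pi.add_apply, Pi.add_apply, iv_apply, iv_apply]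
          have h3 := ih (y + p s(prev s, s)) (Submodule.add_mem _ hy g4) (by
            intro v hv
            by_cases hv1 : v = prev s
            · rw [hv1]; exact g1
            by_cases hv2 : v = s
            · rw [hv2]; exact h1 s hs
            apply h1
            rw [hval v, if_neg hv1, if_neg hv2, add_zero, add_zero] at hv
            exact hv) (by
            intro v hv
            by_cases hv1 : v = prev s
            · rw [hv1]; omega
            by_cases hv2 : v = s
            · exfalso
              rw [hval v, if_neg hv1, if_pos hv2, zero_add, hv2, ne_zero_iff_one.1 hs] at hv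
              exact hv (self_add _)
            rw [hval v, if_neg hv1, if_neg hv2, add_zero, add_zero] at hv
            have g6 := h2 v hv
            have g7 : r v ≠ r s := fun h => hv2 (hr h)
            omega)
          have h4 : p s(prev s, s) ∈ Cyc E ⊔ Submodule.span (ZMod 2) (p '' (J : Set (Sym2 V))) :=
            Submodule.mem_sup_right (Submodule.subset_span ⟨_, by exact_mod_cast hκ, rfl⟩)
          have h5 := Submodule.add_mem _ h3 h4
          rw [add_assoc, self_add_v, add_zero] at h5
          exact h5
        · apply ih y hy h1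
          intro v hv
          have g1 := h2 v hv
          have g2 : r v ≠ n := fun h => hex ⟨v, hv, h⟩
          omega
    intro y hy h1
    exact key (univ.sup r + 1) y hy h1 (fun v _ => by
      have : r v ≤ univ.sup r := Finset.le_sup (mem_univ v)
      omega)

end Pool.Agent.K9h11.BN
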