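import Pool.Agent.K9h11.BN.D

/-! Assembling the pieces: the chain of siblings. -/

set_option autoImplicit false

namespace Pool.Agent.K9h11.BN
open Finset
open Classical

variable {V : Type} [Fintype V]

/-- restriction to a set of edges -/
noncomputable def res (E : Set (Sym2 V)) (x : W V) : W V := fun e => if e ∈ E then x e else 0

lemma res_apply (E : Set (Sym2 V)) (x : W V) (e : Sym2 V) :
    res E x e = if e ∈ E then x e else 0 := rfl

lemma res_mem (E : Set (Sym2 V)) (x : W V) : res E x ∈ Sup E := by
  intro e he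
  rw [res_apply, if_neg he]

/-- the last earlier index with the key `κ` -/
noncomputable def lst (J : ℕ → Finset (Sym2 V)) (i : ℕ) (κ : Sym2 V) : ℕ :=
  Nat.findGreatest (fun j => κ ∈ J j ∧ j < i) i

lemma lst_spec {J : ℕ → Finset (Sym2 V)} {i : ℕ} {κ : Sym2 V} (h : ∃ j < i, κ ∈ J j) :
    κ ∈ J (lst J i κ) ∧ lst J i κ < i := by
  obtain ⟨j, hj, hj2⟩ := h
  exact Nat.findGreatest_spec (P := fun j => κ ∈ J j ∧ j < i) hj.le ⟨hj2, hj⟩

lemma le_lst {J : ℕ → Finset (Sym2 V)} {i j : ℕ} {κ : Sym2 V} (hj : j < i) (h : κ ∈ J j) :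
    j ≤ lst J i κ :=
  Nat.le_findGreatest (P := fun j => κ ∈ J j ∧ j < i) hj.le ⟨h, hj⟩

/-- the generators -/
noncomputable def gen (J : ℕ → Finset (Sym2 V)) (p : ℕ → Sym2 V → W V) (i : ℕ) (κ : Sym2 V) :
    W V :=
  p i κ + if ∃ j < i, κ ∈ J j then p (lst J i κ) κ else de κ

theorem assemble (N b c : ℕ) (E : ℕ → Set (Sym2 V)) (J : ℕ → Finset (Sym2 V))
    (p : ℕ → Sym2 V → W V) (C : ℕ → Finset (W V))
    (hdisj : ∀ i j e, e ∈ E i → e ∈ E j → i = j)
    (hJ : ∀ i, ∀ κ ∈ J i, ∃ j < i, κ ∈ E j)
    (hp : ∀ i, ∀ κ ∈ J i, p i κ ∈ Sup (E i) ∧ bd (p i κ) = bd (de κ))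
    (hC : ∀ i, Submodule.span (ZMod 2) (C i : Set (W V)) = Cyc (E i))
    (hb : ∀ i e, ((C i).filter (fun x => x e ≠ 0)).card ≤ b)
    (hdec : ∀ i, ∀ x ∈ Cyc (⋃ j ∈ {j | j < i + 1}, E j), res (E i) x ∈
      Cyc (E i) ⊔ Submodule.span (ZMod 2) (p i '' (J i : Set (Sym2 V))))
    (hc : ∀ i, ∀ e ∈ E i, ((J i).filter (fun κ => p i κ e ≠ 0)).card ≤ c) :
    SpanPly (Cyc (⋃ j ∈ {j | j < N}, E j)) (b + 2 * c + 1) := by
  -- the family
  obtain ⟨P, hP⟩ : ∃ P : Finset (ℕ × Sym2 V), P = (range N ×ˢ univ).filter (fun q => q.2 ∈ J q.1) :=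
    ⟨_, rfl⟩
  have hPm : ∀ i κ, (i, κ) ∈ P ↔ i < N ∧ κ ∈ J i := by
    intro i κ
    rw [hP]
    simp
  obtain ⟨F, hF⟩ : ∃ F : Finset (W V), F = (range N).biUnion C ∪ P.image (fun q => gen J p q.1 q.2) :=
    ⟨_, rfl⟩
  have hCF : ∀ i < N, ∀ x ∈ C i, x ∈ F := by
    intro i hi x hx
    rw [hF, mem_union, mem_biUnion]
    exact Or.inl ⟨i, mem_range.2 hi, hx⟩
  have hgF : ∀ i < N, ∀ κ ∈ J i, gen J p i κ ∈ F := by
    intro i hi κ hκ
    rw [hF, mem_union, mem_image]
    exact Or.inr ⟨(i, κ), (hPm i κ).2 ⟨hi, hκ⟩, rfl⟩
  -- chain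
  have chain : ∀ i < N, ∀ κ ∈ J i, p i κ + de κ ∈ Submodule.span (ZMod 2) (F : Set (W V)) := by
    intro i
    induction i using Nat.strong_induction_on with
    | _ i ih =>
      intro hi κ hκ
      have h1 : gen J p i κ ∈ Submodule.span (ZMod 2) (F : Set (W V)) :=
        Submodule.subset_span (Finset.mem_coe.2 (hgF i hi κ hκ))
      by_cases hex : ∃ j < i, κ ∈ J j
      · obtain ⟨g1, g2⟩ := lst_spec hex
        have h2 := ih _ g2 (g2.trans hi) κ g1
        have h3 := Submodule.add_mem _ h1 h2
        unfold gen at h3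
        rw [if_pos hex] at h3
        have h4 : p i κ + p (lst J i κ) κ + (p (lst J i κ) κ + de κ) =
            p i κ + de κ + (p (lst J i κ) κ + p (lst J i κ) κ) := by abel
        rw [h4, self_add_v, add_zero] at h3
        exact h3
      · unfold gen at h1
        rw [if_neg hex] at h1
        exact h1
  have hsubU : ∀ i < N, E i ⊆ ⋃ j ∈ {j | j < N}, E j := by
    intro i hi e he
    simp only [Set.mem_setOf_eq, Set.mem_iUnion]
    exact ⟨i, hi, he⟩
  refine ⟨F, le_antisymm ?_ ?_, ?_⟩
  · -- the members are cycles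
    rw [Submodule.span_le]
    intro x hx
    rw [Finset.mem_coe, hF, mem_union, mem_biUnion, mem_image] at hx
    rcases hx with ⟨i, hi, hx⟩ | ⟨⟨i, κ⟩, hq, rfl⟩
    · rw [mem_range] at hi
      refine Cyc_mono (hsubU i hi) ?_
      rw [← hC i]
      exact Submodule.subset_span (Finset.mem_coe.2 hx)
    · obtain ⟨hi, hκ⟩ := (hPm i κ).1 hq
      obtain ⟨g1, g2⟩ := hp i κ hκ
      have s1 : p i κ ∈ Sup (⋃ j ∈ {j | j < N}, E j) := Sup_mono (hsubU i hi) g1
      show gen J p i κ ∈ Cyc _
      unfold gen
      by_cases hex : ∃ j < i, κ ∈ J j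
      · obtain ⟨w1, w2⟩ := lst_spec hex
        obtain ⟨w3, w4⟩ := hp _ κ w1
        rw [if_pos hex]
        refine Submodule.mem_inf.2 ⟨Submodule.add_mem _ s1 (Sup_mono (hsubU _ (w2.trans hi)) w3), ?_⟩
        rw [LinearMap.mem_ker, map_add, g2, w4, self_add_iv]
      · rw [if_neg hex]
        obtain ⟨j, hj, hj2⟩ := hJ i κ hκ
        refine Submodule.mem_inf.2 ⟨Submodule.add_mem _ s1 (de_mem (hsubU j (hj.trans hi) hj2)), ?_⟩
        rw [LinearMap.mem_ker, map_add, g2, self_add_iv]
  · -- spanning
    have hmain : ∀ n ≤ N, ∀ x ∈ Cyc (⋃ j ∈ {j | j < n}, E j),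
        x ∈ Submodule.span (ZMod 2) (F : Set (W V)) := by
      intro n
      induction n with
      | zero =>
        intro _ x hx
        rw [mem_Cyc] at hx
        have : x = 0 := by
          funext e
          apply hx.1
          simp
        rw [this]
        exact Submodule.zero_mem _
      | succ n ih =>
        intro hn x hx
        have hnN : n < N := hn
        have h1 := hdec n x hx
        obtain ⟨cc, hcc, w, hw, hcw⟩ := Submodule.mem_sup.1 h1
        -- replace `w`
        have hrep : ∃ w' ∈ Submodule.span (ZMod 2) (F : Set (W V)), bd w' = 0 ∧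
            w + w' ∈ Sup (⋃ j ∈ {j | j < n}, E j) := by
          clear hcw h1
          induction hw using Submodule.span_induction with
          | mem z hz =>
            obtain ⟨κ, hκ, rfl⟩ := hz
            have hκ' : κ ∈ J n := by exact_mod_cast hκ
            refine ⟨p n κ + de κ, chain n hnN κ hκ', ?_, ?_⟩
            · rw [map_add, (hp n κ hκ').2, self_add_iv]
            · have h4 : p n κ + (p n κ + de κ) = de κ + (p n κ + p n κ) := by abel
              rw [h4, self_add_v, add_zero]
              obtain ⟨j, hj, hj2⟩ := hJ n κ hκ'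
              apply de_mem
              simp only [Set.mem_setOf_eq, Set.mem_iUnion]
              exact ⟨j, hj, hj2⟩
          | zero => exact ⟨0, Submodule.zero_mem _, map_zero _, by
              rw [add_zero]; exact Submodule.zero_mem _⟩
          | add z z' _ _ h h' =>
            obtain ⟨a, a1, a2, a3⟩ := h
            obtain ⟨a', a1', a2', a3'⟩ := h'
            refine ⟨a + a', Submodule.add_mem _ a1 a1', by rw [map_add, a2, a2', add_zero], ?_⟩
            have h4 : z + z' + (a + a') = (z + a) + (z' + a') := by abel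
            rw [h4]
            exact Submodule.add_mem _ a3 a3'
          | smul t z _ h =>
            obtain ⟨a, a1, a2, a3⟩ := h
            refine ⟨t • a, Submodule.smul_mem _ _ a1, by rw [map_smul, a2, smul_zero], ?_⟩
            rw [← smul_add]
            exact Submodule.smul_mem _ _ a3
        obtain ⟨w', hw'1, hw'2, hw'3⟩ := hrep
        have hccC := Submodule.mem_inf.1 hcc
        have hccF : cc ∈ Submodule.span (ZMod 2) (F : Set (W V)) := by
          rw [← hC n] at hcc
          refine Submodule.span_mono ?_ hcc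
          intro z hz
          exact Finset.mem_coe.2 (hCF n hnN z (Finset.mem_coe.1 hz))
        have hx' : x + cc + w' ∈ Cyc (⋃ j ∈ {j | j < n}, E j) := by
          refine Submodule.mem_inf.2 ⟨?_, ?_⟩
          · have h5 : x + cc + w' = (x + res (E n) x) + (w + w') := by
              rw [← hcw]
              have h6 : x + (cc + w) + (w + w') = x + cc + w' + (w + w) := by abel
              rw [h6, self_add_v, add_zero]
            rw [h5]
            refine Submodule.add_mem _ ?_ hw'3
            intro e he
            rw [Pi.add_apply, res_apply]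
            by_cases h7 : e ∈ E n
            · rw [if_pos h7, self_add]
            · rw [if_neg h7, add_zero]
              apply (mem_Cyc.1 hx).1
              intro h8
              apply he
              simp only [Set.mem_setOf_eq, Set.mem_iUnion] at h8 ⊢
              obtain ⟨j, hj, hj2⟩ := h8
              refine ⟨j, ?_, hj2⟩
              rcases Nat.lt_succ_iff_lt_or_eq.1 hj with h9 | h9
              · exact h9
              · subst h9
                exact absurd hj2 h7
          · have h5 := (Submodule.mem_inf.1 hx).2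
            rw [LinearMap.mem_ker] at h5 ⊢
            rw [map_add, map_add, h5, LinearMap.mem_ker.1 hccC.2, hw'2, add_zero, add_zero]
        have h10 := ih hnN.le _ hx'
        have h11 := Submodule.add_mem _ (Submodule.add_mem _ h10 hccF) hw'1
        have h12 : x + cc + w' + cc + w' = x + (cc + cc) + (w' + w') := by abel
        rw [h12, self_add_v, self_add_v, add_zero, add_zero] at h11
        exact h11
    exact fun x hx => hmain N le_rfl x hx
  · -- the ply
    intro e
    by_cases hex : ∃ y < N, e ∈ E y
    · obtain ⟨y, hyN, hy⟩ := hex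
      obtain ⟨K, hK⟩ : ∃ K, K = (J y).filter (fun κ => p y κ e ≠ 0) := ⟨_, rfl⟩
      have hKc : K.card ≤ c := by rw [hK]; exact hc y e hy
      obtain ⟨T, hT⟩ : ∃ T, T = P.filter (fun q => gen J p q.1 q.2 e ≠ 0) := ⟨_, rfl⟩
      obtain ⟨T2, hT2⟩ : ∃ T2, T2 = P.filter (fun q => q.2 ∈ K ∧ (∃ j < q.1, q.2 ∈ J j) ∧
        lst J q.1 q.2 = y) := ⟨_, rfl⟩
      obtain ⟨T3, hT3⟩ : ∃ T3, T3 = P.filter (fun q => q.2 = e ∧ ¬ ∃ j < q.1, q.2 ∈ J j) :=
        ⟨_, rfl⟩
      have hTsub : T ⊆ K.image (fun κ => (y, κ)) ∪ (T2 ∪ T3) := by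
        rintro ⟨i, κ⟩ hq
        rw [hT, mem_filter] at hq
        obtain ⟨hq1, hq2⟩ := hq
        obtain ⟨hi, hκ⟩ := (hPm i κ).1 hq1
        have hz : ∀ j, κ ∈ J j → p j κ e ≠ 0 → j = y ∧ κ ∈ K := by
          intro j hj h
          have : e ∈ E j := by
            by_contra h2
            exact h ((hp j κ hj).1 e h2)
          have h3 := hdisj j y e this hy
          subst h3
          exact ⟨rfl, by rw [hK, mem_filter]; exact ⟨hj, h⟩⟩
        by_cases h1 : p i κ e = 0
        · rw [mem_union, mem_union]
          right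
          change gen J p i κ e ≠ 0 at hq2
          unfold gen at hq2
          rw [Pi.add_apply, h1, zero_add] at hq2
          by_cases hex : ∃ j < i, κ ∈ J j
          · rw [if_pos hex] at hq2
            left
            obtain ⟨w1, w2⟩ := lst_spec hex
            obtain ⟨u1, u2⟩ := hz _ w1 hq2
            rw [hT2, mem_filter]
            exact ⟨hq1, u2, hex, u1⟩
          · rw [if_neg hex] at hq2
            right
            rw [hT3, mem_filter]
            refine ⟨hq1, ?_, hex⟩
            rw [de_apply] at hq2
            by_contra h3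
            exact hq2 (if_neg (fun h => h3 h.symm))
        · rw [mem_union]
          left
          obtain ⟨u1, u2⟩ := hz i hκ h1
          rw [mem_image]
          exact ⟨κ, u2, by rw [u1]⟩
      have hT2c : T2.card ≤ K.card := by
        apply Finset.card_le_card_of_injOn (fun q => q.2)
        · intro q hq
          rw [Finset.mem_coe, hT2, mem_filter] at hq
          exact Finset.mem_coe.2 hq.2.1
        · rintro ⟨i, κ⟩ hq ⟨i', κ'⟩ hq' (heq : κ = κ')
          subst heq
          rw [Finset.mem_coe, hT2, mem_filter, hPm] at hq hq'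
          obtain ⟨⟨-, a1⟩, -, a2, a3⟩ := hq
          obtain ⟨⟨-, b1⟩, -, b2, b3⟩ := hq'
          have c1 := (lst_spec a2).2
          have c2 := (lst_spec b2).2
          change lst J i κ = y at a3
          change lst J i' κ = y at b3
          change lst J i κ < i at c1
          change lst J i' κ < i' at c2
          have : i = i' := by
            rcases lt_trichotomy i i' with h | h | h
            · have := le_lst h a1
              omega
            · exact h
            · have := le_lst h b1
              omega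
          rw [this]
      have hT3c : T3.card ≤ 1 := by
        rw [Finset.card_le_one]
        rintro ⟨i, κ⟩ hq ⟨i', κ'⟩ hq'
        rw [hT3, mem_filter, hPm] at hq hq'
        obtain ⟨⟨-, a1⟩, a2, a3⟩ := hq
        obtain ⟨⟨-, b1⟩, b2, b3⟩ := hq'
        change κ = e at a2
        change κ' = e at b2
        subst a2
        subst b2
        have : i = i' := by
          rcases lt_trichotomy i i' with h | h | h
          · exact absurd ⟨i, h, a1⟩ b3
          · exact h
          · exact absurd ⟨i', h, b1⟩ a3
        rw [this]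
      have hTc : T.card ≤ 2 * c + 1 := by
        refine (Finset.card_le_card hTsub).trans ?_
        refine (Finset.card_union_le _ _).trans ?_
        have u1 : (K.image (fun κ => (y, κ))).card ≤ K.card := Finset.card_image_le
        have u2 : (T2 ∪ T3).card ≤ T2.card + T3.card := Finset.card_union_le _ _
        omega
      have hFsub : F.filter (fun x => x e ≠ 0) ⊆
          (C y).filter (fun x => x e ≠ 0) ∪ T.image (fun q => gen J p q.1 q.2) := by
        intro x hx
        rw [mem_filter, hF, mem_union, mem_biUnion, mem_image] at hx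
        obtain ⟨hx1, hx2⟩ := hx
        rw [mem_union]
        rcases hx1 with ⟨i, hi, hx1⟩ | ⟨q, hq, rfl⟩
        · left
          have : x ∈ Cyc (E i) := by
            rw [← hC i]
            exact Submodule.subset_span (Finset.mem_coe.2 hx1)
          have h2 : e ∈ E i := by
            by_contra h3
            exact hx2 ((mem_Cyc.1 this).1 e h3)
          have h3 := hdisj i y e h2 hy
          subst h3
          rw [mem_filter]
          exact ⟨hx1, hx2⟩
        · right
          rw [mem_image]
          exact ⟨q, by rw [hT, mem_filter]; exact ⟨hq, hx2⟩, rfl⟩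
      refine (Finset.card_le_card hFsub).trans ((Finset.card_union_le _ _).trans ?_)
      have v1 := hb y e
      have v2 : (T.image (fun q => gen J p q.1 q.2)).card ≤ T.card := Finset.card_image_le
      omega
    · -- no member contains `e`
      have hall : ∀ i < N, e ∉ E i := fun i hi h => hex ⟨i, hi, h⟩
      have hempty : F.filter (fun x => x e ≠ 0) = ∅ := by
        rw [Finset.filter_eq_empty_iff]
        intro x hx
        rw [hF, mem_union, mem_biUnion, mem_image] at hx
        rw [not_not]
        rcases hx with ⟨i, hi, hx⟩ | ⟨⟨i, κ⟩, hq, rfl⟩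
        · have : x ∈ Cyc (E i) := by
            rw [← hC i]
            exact Submodule.subset_span (Finset.mem_coe.2 hx)
          exact (mem_Cyc.1 this).1 e (hall i (mem_range.1 hi))
        · obtain ⟨hi, hκ⟩ := (hPm i κ).1 hq
          show gen J p i κ e = 0
          unfold gen
          rw [Pi.add_apply, (hp i κ hκ).1 e (hall i hi), zero_add]
          by_cases hex2 : ∃ j < i, κ ∈ J j
          · rw [if_pos hex2]
            obtain ⟨w1, w2⟩ := lst_spec hex2
            exact (hp _ κ w1).1 e (hall _ (w2.trans hi))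
          · rw [if_neg hex2, de_apply, if_neg]
            rintro rfl
            obtain ⟨j, hj, hj2⟩ := hJ i _ hκ
            exact hall j (hj.trans hi) hj2
      rw [hempty]
      simp

end Pool.Agent.K9h11.BN
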