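import Pool.Agent.K9h11.BN.E

/-! The bound along an ordering of the bags. -/

set_option autoImplicit false

namespace Pool.Agent.K9h11.BN
open Finset
open Classical

variable {V : Type} [Fintype V]

/-- the new edges of the bag `i` -/
def nw (G : SimpleGraph V) (N : ℕ) (B : ℕ → Finset V) (i : ℕ) : Set (Sym2 V) :=
  {e | i < N ∧ e ∈ G.edgeSet ∧ (∀ v ∈ e, v ∈ B i) ∧ ∀ j < i, ¬ ∀ v ∈ e, v ∈ B j}

/-- the old vertices of the bag `i` -/
noncomputable def old (B : ℕ → Finset V) (i : ℕ) : Finset V :=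
  (B i).filter (fun v => ∃ j < i, v ∈ B j)

lemma mem_old {B : ℕ → Finset V} {i : ℕ} {v : V} : v ∈ old B i ↔ v ∈ B i ∧ ∃ j < i, v ∈ B j := by
  unfold old
  rw [mem_filter]

lemma nw_diag {G : SimpleGraph V} {N : ℕ} {B : ℕ → Finset V} {i : ℕ} :
    ∀ e ∈ nw G N B i, ¬ e.IsDiag :=
  fun _ he => SimpleGraph.not_isDiag_of_mem_edgeSet G he.2.1

lemma nw_find {G : SimpleGraph V} {N : ℕ} {B : ℕ → Finset V} {e : Sym2 V} (he : e ∈ G.edgeSet)
    {i : ℕ} (hi : i < N) (h : ∀ v ∈ e, v ∈ B i) : ∃ j ≤ i, e ∈ nw G N B j := by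
  have hex : ∃ j, ∀ v ∈ e, v ∈ B j := ⟨i, h⟩
  refine ⟨Nat.find hex, Nat.find_min' hex h, (Nat.find_min' hex h).trans_lt hi, he,
    Nat.find_spec hex, fun j hj => Nat.find_min hex hj⟩

theorem main0 {G : SimpleGraph V} {a b N : ℕ} (B : ℕ → Finset V)
    (hedge : ∀ u v, G.Adj u v → ∃ i < N, u ∈ B i ∧ v ∈ B i)
    (hclique : ∀ i < N, ∀ u ∈ old B i, ∀ v ∈ old B i, u ≠ v → G.Adj u v)
    (hrun : ∀ i < N, (old B i).Nonempty → ∃ p < i, old B i ⊆ B p)
    (hpart : ∀ i < N, SpanPly (Cyc (nw G N B i)) b)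
    (hadh : ∀ i < N, (nw G N B i).Nonempty → (old B i).card ≤ a) :
    SpanPly (Cyc G.edgeSet) (b + 2 * (a - 1) + 1) := by
  have hJp : ∀ i, ∃ (J : Finset (Sym2 V)) (p : Sym2 V → W V), J.card ≤ a - 1 ∧
      (∀ κ ∈ J, i < N) ∧
      (∀ κ ∈ J, ∃ a ∈ old B i, ∃ b ∈ old B i, a ≠ b ∧ κ = s(a, b)) ∧
      (∀ κ ∈ J, p κ ∈ Sup (nw G N B i) ∧ bd (p κ) = bd (de κ)) ∧
      ∀ y ∈ Sup (nw G N B i), (∀ v, bd y v ≠ 0 → v ∈ old B i) →
        y ∈ Cyc (nw G N B i) ⊔ Submodule.span (ZMod 2) (p '' (J : Set (Sym2 V))) := by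
    intro i
    by_cases hne : (nw G N B i).Nonempty
    · have hi : i < N := by
        obtain ⟨e, he⟩ := hne
        exact he.1
      obtain ⟨J, p, h1, h2, h3, h4⟩ := rel (nw_diag (G := G) (N := N) (B := B) (i := i)) (old B i)
      have h5 := hadh i hi hne
      exact ⟨J, p, by omega, fun _ _ => hi, h2, h3, h4⟩
    · refine ⟨∅, 0, by simp, by simp, by simp, by simp, ?_⟩
      intro y hy _
      have : y = 0 := by
        funext e
        exact hy e (fun he => hne ⟨e, he⟩)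
      rw [this]
      exact Submodule.zero_mem _
  choose J p hJ1 hJ2 hJ3 hJ4 hJ5 using hJp
  have hCp : ∀ i, ∃ C : Finset (W V), Submodule.span (ZMod 2) (C : Set (W V)) = Cyc (nw G N B i) ∧
      ∀ e : Sym2 V, (C.filter (fun x => x e ≠ 0)).card ≤ b := by
    intro i
    by_cases hi : i < N
    · exact hpart i hi
    · obtain ⟨C, h1, h2⟩ := small (nw_diag (G := G) (N := N) (B := B) (i := i)) (B := ∅)
        (fun e he => absurd he.1 hi)
      exact ⟨C, h1, fun e => (h2 e).trans (by simp)⟩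
  choose C hC1 hC2 using hCp
  have hU : (⋃ j ∈ {j | j < N}, nw G N B j) = G.edgeSet := by
    ext e
    simp only [Set.mem_setOf_eq, Set.mem_iUnion]
    constructor
    · rintro ⟨i, -, he⟩
      exact he.2.1
    · intro he
      obtain ⟨i, hi, hiB⟩ : ∃ i < N, ∀ v ∈ e, v ∈ B i := by
        induction e with
        | _ u v =>
          obtain ⟨i, hi, h1, h2⟩ := hedge u v he
          refine ⟨i, hi, fun w hw => ?_⟩
          rw [Sym2.mem_iff] at hw
          rcases hw with rfl | rfl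
          · exact h1
          · exact h2
      obtain ⟨j, hj, hj2⟩ := nw_find he hi hiB
      exact ⟨j, hj.trans_lt hi, hj2⟩
  rw [← hU]
  apply assemble N b (a - 1) (nw G N B) J p C
  · -- disjoint
    intro i j e hi hj
    rcases lt_trichotomy i j with h | h | h
    · exact absurd hi.2.2.1 (hj.2.2.2 i h)
    · exact h
    · exact absurd hj.2.2.1 (hi.2.2.2 j h)
  · -- the pairs are earlier edges
    intro i κ hκ
    have hi := hJ2 i κ hκ
    obtain ⟨u, hu, v, hv, huv, rfl⟩ := hJ3 i κ hκ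
    obtain ⟨q, hq, hqB⟩ := hrun i hi ⟨u, hu⟩
    have hadj := hclique i hi u hu v hv huv
    obtain ⟨j, hj, hj2⟩ := nw_find (G := G) (N := N) (B := B) (e := s(u, v)) hadj (hq.trans hi)
      (fun w hw => by
        rw [Sym2.mem_iff] at hw
        rcases hw with rfl | rfl
        · exact hqB hu
        · exact hqB hv)
    exact ⟨j, hj.trans_lt hq, hj2⟩
  · exact hJ4
  · exact hC1
  · exact hC2
  · intro i x hx
    apply hJ5 i _ (res_mem _ _)
    intro v hv
    rw [mem_Cyc] at hx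
    rw [mem_old]
    constructor
    · by_contra hvB
      apply hv
      rw [bd_apply]
      apply Finset.sum_eq_zero
      intro e he
      rw [mem_filter] at he
      rw [res_apply, if_neg]
      intro h
      exact hvB (h.2.2.1 v he.2)
    · by_contra hno
      apply hv
      rw [← hx.2 v, bd_apply, bd_apply]
      apply Finset.sum_congr rfl
      intro e he
      rw [mem_filter] at he
      rw [res_apply]
      split_ifs with h
      · rfl
      · symm
        apply hx.1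
        intro h2
        simp only [Set.mem_setOf_eq, Set.mem_iUnion] at h2
        obtain ⟨j, hj, hj2⟩ := h2
        rcases Nat.lt_succ_iff_lt_or_eq.1 hj with h3 | h3
        · exact hno ⟨j, h3, hj2.2.2.1 v he.2⟩
        · subst h3
          exact h hj2
  · intro i e _
    exact (Finset.card_filter_le _ _).trans (hJ1 i)

/-- path decompositions -/
theorem pathw {E : Set (Sym2 V)} (hE : ∀ e ∈ E, ¬ e.IsDiag) {k M : ℕ} (D : ℕ → Finset V)
    (hcov : ∀ e ∈ E, ∃ j < M, ∀ v ∈ e, v ∈ D j)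
    (hconv : ∀ v i j l, i ≤ j → j ≤ l → l < M → v ∈ D i → v ∈ D l → v ∈ D j)
    (hcard : ∀ j < M, (D j).card ≤ k + 1) : SpanPly (Cyc E) (k + 1) := by
  obtain ⟨f, hf⟩ : ∃ f : Sym2 V → ℕ, ∀ e ∈ E, f e < M ∧ ∀ v ∈ e, v ∈ D (f e) := by
    have : ∀ e : Sym2 V, ∃ j, e ∈ E → j < M ∧ ∀ v ∈ e, v ∈ D j := by
      intro e
      by_cases he : e ∈ E
      · obtain ⟨j, h1, h2⟩ := hcov e he
        exact ⟨j, fun _ => ⟨h1, h2⟩⟩
      · exact ⟨0, fun h => absurd h he⟩
    choose f hf using this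
    exact ⟨f, hf⟩
  obtain ⟨T, hT⟩ : ∃ T, T = Fintype.card (Sym2 V) := ⟨_, rfl⟩
  obtain ⟨g, hg, hgT⟩ : ∃ g : Sym2 V → ℕ, Function.Injective g ∧ ∀ e, g e < T :=
    ⟨fun e => (Fintype.equivFin (Sym2 V) e : ℕ), fun a b h =>
      (Fintype.equivFin (Sym2 V)).injective (Fin.ext h), fun e => by
        rw [hT]; exact (Fintype.equivFin (Sym2 V) e).2⟩
  obtain ⟨r, hr⟩ : ∃ r : Sym2 V → ℕ, ∀ e, r e = f e * T + g e := ⟨_, fun _ => rfl⟩
  have hle : ∀ e e', r e ≤ r e' → f e ≤ f e' := by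
    intro e e' h
    rw [hr, hr] at h
    by_contra hlt
    rw [not_le] at hlt
    have h1 : (f e' + 1) * T ≤ f e * T := Nat.mul_le_mul_right _ hlt
    have h2 := hgT e'
    rw [add_mul, one_mul] at h1
    omega
  have hrinj : Function.Injective r := by
    intro e e' h
    have h1 := hle e e' h.le
    have h2 := hle e' e h.symm.le
    have h3 : f e = f e' := le_antisymm h1 h2
    rw [hr, hr, h3] at h
    exact hg (by omega)
  obtain ⟨M', hM'⟩ : ∃ M', ∀ e, r e ≤ M' := ⟨univ.sup r, fun e => Finset.le_sup (mem_univ e)⟩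
  have hr' : Function.Injective (fun e => M' - r e) := by
    intro a b h
    have h1 := hM' a
    have h2 := hM' b
    have h3 : M' - r a = M' - r b := h
    exact hrinj (by omega)
  obtain ⟨S, hS1, hS2, hS3, hS4⟩ := echelon (Cyc E) r (fun e => M' - r e) hrinj hr'
  refine ⟨S, hS1, fun e0 => ?_⟩
  by_cases he0 : e0 ∈ E
  · obtain ⟨h1, h2⟩ := hf e0 he0
    refine (cross hE hrinj hM' hS1 hS2 hS3 hS4 (D (f e0)) ?_ e0 ?_).trans (hcard _ h1)
    · induction e0 with
      | _ u v => exact ⟨u, h2 u (Sym2.mem_mk_left u v)⟩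
    · rintro v ⟨e, he, hv, hlt⟩ ⟨e', he', hv', hle'⟩
      obtain ⟨a1, a2⟩ := hf e he
      obtain ⟨b1, b2⟩ := hf e' he'
      exact hconv v (f e) (f e0) (f e') (hle _ _ hlt.le) (hle _ _ hle') b1 (a2 v hv) (b2 v hv')
  · have : S.filter (fun x => x e0 ≠ 0) = ∅ := by
      rw [Finset.filter_eq_empty_iff]
      intro x hx
      rw [not_not]
      have h1 : x ∈ Cyc E := by
        rw [← hS1]
        exact Submodule.subset_span (Finset.mem_coe.2 hx)
      exact (mem_Cyc.1 h1).1 e0 he0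
    rw [this]
    simp

end Pool.Agent.K9h11.BN
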