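import Pool.Agent.K9h11.BN.F

/-! Trees: an ordering of the nodes. -/

set_option autoImplicit false

namespace Pool.Agent.K9h11.BN
open Finset
open Classical

lemma avoid {ι : Type} {T : SimpleGraph ι} (hT : T.IsAcyclic) {x z z' : ι} (hz : T.Adj x z)
    (hz' : T.Adj x z') (hne : z ≠ z') (w : T.Walk z z') (hw : x ∉ w.support) : False := by
  have hp2 : (SimpleGraph.Walk.cons hz.symm
      (SimpleGraph.Walk.cons hz' SimpleGraph.Walk.nil)).IsPath := by
    rw [SimpleGraph.Walk.cons_isPath_iff, SimpleGraph.Walk.cons_isPath_iff]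
    refine ⟨⟨SimpleGraph.Walk.IsPath.nil, ?_⟩, ?_⟩
    · simpa using hz'.ne
    · simp only [SimpleGraph.Walk.support_cons, SimpleGraph.Walk.support_nil, List.mem_cons,
        List.not_mem_nil, or_false, not_or]
      exact ⟨hz.ne.symm, hne⟩
  have h := hT.path_unique w.toPath ⟨_, hp2⟩
  have h1 : x ∈ (w.toPath : T.Walk z z').support := by
    rw [h]
    simp
  exact hw (SimpleGraph.Walk.support_toPath_subset w h1)

lemma short {ι : Type} {T : SimpleGraph ι} {r y x : ι} (w : T.Walk r y)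
    (hw : w.length = T.dist r y) (hx : x ∈ w.support) (h : T.dist r y ≤ T.dist r x) : x = y := by
  have h1 : T.dist r x ≤ (w.takeUntil x hx).length := SimpleGraph.dist_le _
  have h2 := congrArg SimpleGraph.Walk.length (w.take_spec hx)
  rw [SimpleGraph.Walk.length_append] at h2
  have h3 : (w.dropUntil x hx).length = 0 := by omega
  exact SimpleGraph.Walk.eq_of_length_eq_zero h3

lemma parent {ι : Type} {T : SimpleGraph ι} (hT : T.IsTree) (r : ι) {x : ι} (hx : x ≠ r) :
    ∃ p, T.Adj x p ∧ T.dist r p < T.dist r x ∧ ∀ (y : ι), y ≠ x → T.dist r y ≤ T.dist r x →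
      ∀ (w : T.Walk x y), w.IsPath → p ∈ w.support := by
  obtain ⟨w0, hw0⟩ := hT.1.exists_walk_length_eq_dist x r
  cases w0 with
  | nil => exact absurd rfl hx
  | @cons _ p _ h w1 =>
    rw [SimpleGraph.Walk.length_cons] at hw0
    have h1 : T.dist p r ≤ w1.length := SimpleGraph.dist_le _
    have h2 : T.dist r p < T.dist r x := by
      rw [SimpleGraph.dist_comm (u := r) (v := p), SimpleGraph.dist_comm (u := r) (v := x)]
      omega
    refine ⟨p, h, h2, ?_⟩
    intro y hy hd w hw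
    obtain ⟨w2, hw2⟩ := hT.1.exists_walk_length_eq_dist r p
    obtain ⟨w3, hw3⟩ := hT.1.exists_walk_length_eq_dist r y
    have hx2 : x ∉ w2.support := fun h3 => h.ne (short w2 hw2 h3 h2.le)
    have hx3 : x ∉ w3.support := fun h3 => hy (short w3 hw3 h3 hd).symm
    cases w with
    | nil => exact absurd rfl hy
    | @cons _ z _ h' w' =>
      rw [SimpleGraph.Walk.cons_isPath_iff] at hw
      by_cases hzp : z = p
      · subst hzp
        simp
      · exfalso
        apply avoid hT.2 h' h hzp (w'.append (w3.reverse.append w2))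
        rw [SimpleGraph.Walk.mem_support_append_iff, SimpleGraph.Walk.mem_support_append_iff,
          SimpleGraph.Walk.support_reverse, List.mem_reverse]
        rintro (h4 | h4 | h4)
        · exact hw.2 h4
        · exact hx3 h4
        · exact hx2 h4

theorem tree_order {V ι : Type} [Fintype ι] {T : SimpleGraph ι} (hT : T.IsTree)
    (B : ι → Finset V) (hconn : ∀ v, (T.induce {x | v ∈ B x}).Preconnected) :
    ∃ (N : ℕ) (nd : ℕ → ι), (∀ x, ∃ i < N, nd i = x) ∧
      ∀ i < N, (∃ v ∈ B (nd i), ∃ j < i, v ∈ B (nd j)) → ∃ p < i, T.Adj (nd i) (nd p) ∧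
        ∀ v ∈ B (nd i), (∃ j < i, v ∈ B (nd j)) → v ∈ B (nd p) := by
  obtain ⟨r⟩ := hT.1.nonempty
  let N := Fintype.card ι
  let e0 : ι ≃ Fin N := Fintype.equivFin ι
  let f : Fin N → ℕ := fun i => T.dist r (e0.symm i)
  let σ := Tuple.sort f
  have hσ : Monotone (f ∘ σ) := Tuple.monotone_sort f
  let nd : ℕ → ι := fun i => if h : i < N then e0.symm (σ ⟨i, h⟩) else r
  have hnd : ∀ (i : ℕ) (h : i < N), nd i = e0.symm (σ ⟨i, h⟩) := fun i h => dif_pos h
  have hsurj : ∀ x, ∃ i < N, nd i = x := by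
    intro x
    refine ⟨(σ.symm (e0 x)).1, (σ.symm (e0 x)).2, ?_⟩
    rw [hnd _ (σ.symm (e0 x)).2]
    simp
  have hinj : ∀ i j : ℕ, i < N → j < N → nd i = nd j → i = j := by
    intro i j hi hj h
    rw [hnd i hi, hnd j hj] at h
    have := σ.injective (e0.symm.injective h)
    exact congrArg Fin.val this
  have hmono : ∀ i j : ℕ, i ≤ j → j < N → T.dist r (nd i) ≤ T.dist r (nd j) := by
    intro i j hij hj
    rw [hnd i (hij.trans_lt hj), hnd j hj]
    exact hσ (show (⟨i, hij.trans_lt hj⟩ : Fin N) ≤ ⟨j, hj⟩ from hij)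
  refine ⟨N, nd, hsurj, ?_⟩
  intro i hi hex
  have hxr : nd i ≠ r := by
    intro h
    obtain ⟨v, -, j, hj, -⟩ := hex
    have h1 := hmono j i hj.le hi
    rw [h, SimpleGraph.dist_self, Nat.le_zero] at h1
    have h2 : r = nd j := (hT.1.dist_eq_zero_iff).1 h1
    have h3 := hinj i j hi (hj.trans hi) (h.trans h2)
    omega
  obtain ⟨p, hp1, hp2, hp3⟩ := parent hT r hxr
  obtain ⟨q, hq, hqp⟩ := hsurj p
  have hqi : q < i := by
    by_contra hcon
    have := hmono i q (not_lt.1 hcon) hq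
    rw [hqp] at this
    omega
  refine ⟨q, hqi, by rw [hqp]; exact hp1, ?_⟩
  rintro v hv ⟨j, hj, hvj⟩
  have hne : nd j ≠ nd i := fun h => by
    have := hinj j i (hj.trans hi) hi h
    omega
  obtain ⟨w⟩ := hconn v ⟨nd i, hv⟩ ⟨nd j, hvj⟩
  let w' : T.Walk (nd i) (nd j) := w.map (SimpleGraph.Embedding.induce {x | v ∈ B x}).toHom
  have hw' : ∀ z ∈ w'.support, v ∈ B z := by
    intro z hz
    change z ∈ (w.map (SimpleGraph.Embedding.induce {x | v ∈ B x}).toHom).support at hz
    rw [SimpleGraph.Walk.support_map, List.mem_map] at hz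
    obtain ⟨y, -, rfl⟩ := hz
    exact y.2
  have h4 := hp3 (nd j) hne (hmono j i hj.le hi) (w'.toPath : T.Walk (nd i) (nd j)) w'.toPath.2
  rw [hqp]
  exact hw' p (SimpleGraph.Walk.support_toPath_subset w' h4)

end Pool.Agent.K9h11.BN
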