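import Pool.Agent.K9h11.BN.H

/-! Routing missing edges, and the bound for tree decompositions. -/

set_option autoImplicit false

namespace Pool.Agent.K9h11.BN
open Finset
open Classical

variable {V : Type} [Fintype V]

lemma walk_vec {G : SimpleGraph V} {u v : V} (w : G.Walk u v) :
    ∃ x : W V, (∀ e, x e ≠ 0 → e ∈ w.edges) ∧ bd x = iv u + iv v := by
  induction w with
  | nil => exact ⟨0, by simp, by rw [map_zero, self_add_iv]⟩
  | @cons a b c h w ih =>
    obtain ⟨x, h1, h2⟩ := ih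
    refine ⟨de s(a, b) + x, ?_, ?_⟩
    · intro e he
      rw [SimpleGraph.Walk.edges_cons, List.mem_cons]
      by_cases h3 : e = s(a, b)
      · exact Or.inl h3
      · right
        apply h1
        intro h4
        apply he
        rw [Pi.add_apply, de_apply, if_neg h3, h4, add_zero]
    · rw [map_add, bd_de h.ne, h2]
      have : iv a + iv b + (iv b + iv c) = iv a + iv c + (iv b + iv b) := by abel
      rw [this, self_add_iv, add_zero]

lemma SpanPly.mono {Z : Submodule (ZMod 2) (W V)} {m n : ℕ} (h : SpanPly Z m) (hmn : m ≤ n) :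
    SpanPly Z n := by
  obtain ⟨B, h1, h2⟩ := h
  exact ⟨B, h1, fun e => (h2 e).trans hmn⟩

/-- the linear map replacing the missing edges by their routes -/
noncomputable def phi (E : Set (Sym2 V)) (R : Finset (Sym2 V)) (q : Sym2 V → W V) :
    W V →ₗ[ZMod 2] W V where
  toFun x e := (if e ∈ E then x e else 0) + ∑ κ ∈ R, x κ * q κ e
  map_add' x y := by
    funext e
    by_cases h : e ∈ E
    · simp only [h, if_true, Pi.add_apply, add_mul, Finset.sum_add_distrib]
      ring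
    · simp only [h, if_false, Pi.add_apply, add_mul, Finset.sum_add_distrib, zero_add]
  map_smul' c x := by
    funext e
    by_cases h : e ∈ E
    · simp only [h, if_true, Pi.smul_apply, smul_eq_mul, RingHom.id_apply, mul_add,
        Finset.mul_sum, mul_assoc]
    · simp only [h, if_false, Pi.smul_apply, smul_eq_mul, RingHom.id_apply, mul_add,
        Finset.mul_sum, mul_assoc, mul_zero]

lemma phi_apply (E : Set (Sym2 V)) (R : Finset (Sym2 V)) (q : Sym2 V → W V) (x : W V)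
    (e : Sym2 V) : phi E R q x e = (if e ∈ E then x e else 0) + ∑ κ ∈ R, x κ * q κ e := rfl

lemma phi_eq (E : Set (Sym2 V)) (R : Finset (Sym2 V)) (q : Sym2 V → W V) (x : W V) :
    phi E R q x = res E x + ∑ κ ∈ R, x κ • q κ := by
  funext e
  rw [phi_apply, Pi.add_apply, res_apply, Finset.sum_apply]
  rfl

theorem route {E E' : Set (Sym2 V)} (hEE : E ⊆ E') (q : Sym2 V → W V)
    (hq : ∀ κ ∈ E', κ ∉ E → q κ ∈ Sup E ∧ bd (q κ) = bd (de κ)) {m t : ℕ}
    (hm : ∀ e, ∃ Q : Finset (Sym2 V), (∀ κ ∈ E', κ ∉ E → q κ e ≠ 0 → κ ∈ Q) ∧ Q.card ≤ m)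
    (h : SpanPly (Cyc E') t) : SpanPly (Cyc E) (t * (m + 1)) := by
  obtain ⟨R, hR⟩ : ∃ R : Finset (Sym2 V), ∀ κ, κ ∈ R ↔ κ ∈ E' ∧ κ ∉ E :=
    ⟨univ.filter (fun κ => κ ∈ E' ∧ κ ∉ E), fun κ => by simp⟩
  obtain ⟨F, hF, hFt⟩ := h
  have hdec : ∀ x ∈ Sup E', x = res E x + ∑ κ ∈ R, x κ • de κ := by
    intro x hx
    funext e
    rw [Pi.add_apply, res_apply, Finset.sum_apply]
    have h1 : ∀ κ ∈ R, (x κ • de κ) e = if e = κ then x κ else 0 := by
      intro κ _
      rw [Pi.smul_apply, de_apply, smul_eq_mul, mul_ite, mul_one, mul_zero]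
    rw [Finset.sum_congr rfl h1, Finset.sum_ite_eq]
    by_cases h2 : e ∈ E
    · have h3 : e ∉ R := fun h => ((hR e).1 h).2 h2
      rw [if_pos h2, if_neg h3, add_zero]
    · by_cases h3 : e ∈ E'
      · rw [if_neg h2, if_pos ((hR e).2 ⟨h3, h2⟩), zero_add]
      · have h4 : e ∉ R := fun h => h3 ((hR e).1 h).1
        rw [if_neg h2, if_neg h4, zero_add]
        exact hx e h3
  have hmap : ∀ x ∈ Cyc E', phi E R q x ∈ Cyc E := by
    intro x hx
    obtain ⟨x1, x2⟩ := Submodule.mem_inf.1 hx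
    rw [phi_eq]
    refine Submodule.mem_inf.2 ⟨?_, ?_⟩
    · refine Submodule.add_mem _ (res_mem _ _) (Submodule.sum_mem _ fun κ hκ => ?_)
      obtain ⟨h1, h2⟩ := (hR κ).1 hκ
      exact Submodule.smul_mem _ _ (hq κ h1 h2).1
    · rw [LinearMap.mem_ker] at x2 ⊢
      rw [map_add, map_sum]
      have h1 : ∀ κ ∈ R, bd (x κ • q κ) = bd (x κ • de κ) := by
        intro κ hκ
        obtain ⟨h1, h2⟩ := (hR κ).1 hκ
        rw [map_smul, map_smul, (hq κ h1 h2).2]
      rw [Finset.sum_congr rfl h1, ← map_sum, ← map_add, ← hdec x x1]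
      exact x2
  have hid : ∀ x ∈ Cyc E, phi E R q x = x := by
    intro x hx
    rw [mem_Cyc] at hx
    funext e
    rw [phi_apply, Finset.sum_eq_zero, add_zero]
    · split_ifs with h1
      · rfl
      · exact (hx.1 e h1).symm
    · intro κ hκ
      rw [hx.1 κ ((hR κ).1 hκ).2, zero_mul]
  refine ⟨F.image (phi E R q), le_antisymm ?_ ?_, fun e => ?_⟩
  · rw [Submodule.span_le]
    intro y hy
    rw [Finset.coe_image] at hy
    obtain ⟨x, hx, rfl⟩ := hy
    apply hmap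
    rw [← hF]
    exact Submodule.subset_span hx
  · intro y hy
    have h1 : y ∈ Submodule.span (ZMod 2) (F : Set (W V)) := by
      rw [hF]; exact Cyc_mono hEE hy
    rw [Finset.coe_image, Submodule.span_image, ← hid y hy]
    exact Submodule.mem_map_of_mem h1
  · obtain ⟨Q, hQ, hQm⟩ := hm e
    have hsub : (F.image (phi E R q)).filter (fun x => x e ≠ 0) ⊆
        (F.filter (fun x => x e ≠ 0) ∪ Q.biUnion
          (fun κ => F.filter (fun x => x κ ≠ 0))).image (phi E R q) := by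
      intro y hy
      rw [mem_filter, mem_image] at hy
      obtain ⟨⟨x, hx, rfl⟩, h1⟩ := hy
      rw [mem_image]
      refine ⟨x, ?_, rfl⟩
      rw [mem_union, mem_filter, mem_biUnion]
      by_cases h2 : x e = 0
      · right
        rw [phi_apply, h2, ite_self, zero_add] at h1
        obtain ⟨κ, hκ, h3⟩ := Finset.exists_ne_zero_of_sum_ne_zero h1
        obtain ⟨h4, h5⟩ := (hR κ).1 hκ
        exact ⟨κ, hQ κ h4 h5 (right_ne_zero_of_mul h3),
          mem_filter.2 ⟨hx, left_ne_zero_of_mul h3⟩⟩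
      · exact Or.inl ⟨hx, h2⟩
    refine (Finset.card_le_card hsub).trans (Finset.card_image_le.trans
      ((Finset.card_union_le _ _).trans ?_))
    have h1 : (Q.biUnion (fun κ => F.filter (fun x => x κ ≠ 0))).card ≤ Q.card * t :=
      Finset.card_biUnion_le_card_mul _ _ _ (fun κ _ => hFt κ)
    have h2 := hFt e
    have h3 := Nat.mul_le_mul_right t hQm
    calc _ ≤ t + m * t := by omega
      _ = t * (m + 1) := by ring

theorem treeMain {ι : Type} [Fintype ι] {G : SimpleGraph V} {T : SimpleGraph ι} (hT : T.IsTree)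
    (B : ι → Finset V) (hconn : ∀ v, (T.induce {x | v ∈ B x}).Preconnected)
    (hedge : ∀ u v, G.Adj u v → ∃ x, u ∈ B x ∧ v ∈ B x)
    (hclique : ∀ x y, T.Adj x y → ∀ u v, u ∈ B x → v ∈ B x → u ∈ B y → v ∈ B y → u ≠ v →
      G.Adj u v) {a b : ℕ}
    (hpart : ∀ x, ∀ E : Set (Sym2 V), E ⊆ G.edgeSet → (∀ e ∈ E, ∀ v ∈ e, v ∈ B x) →
      SpanPly (Cyc E) b)
    (hadh : ∀ x, ∀ S : Finset V, S ⊆ B x → (∀ u ∈ S, ∀ v ∈ S, u ≠ v → G.Adj u v) →
      S ≠ B x → S.card ≤ a) : SpanPly (Cyc G.edgeSet) (b + 2 * (a - 1) + 1) := by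
  obtain ⟨N, nd, hnd, hrun⟩ := tree_order hT B hconn
  have hpar : ∀ i < N, (old (fun i => B (nd i)) i).Nonempty → ∃ p < i, T.Adj (nd i) (nd p) ∧
      old (fun i => B (nd i)) i ⊆ B (nd p) := by
    rintro i hi ⟨v, hv⟩
    rw [mem_old] at hv
    obtain ⟨p, hp, h1, h2⟩ := hrun i hi ⟨v, hv.1, hv.2⟩
    refine ⟨p, hp, h1, ?_⟩
    intro u hu
    rw [mem_old] at hu
    exact h2 u hu.1 hu.2
  have hcl : ∀ i < N, ∀ u ∈ old (fun i => B (nd i)) i, ∀ v ∈ old (fun i => B (nd i)) i, u ≠ v →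
      G.Adj u v := by
    intro i hi u hu v hv huv
    obtain ⟨p, hp, h1, h2⟩ := hpar i hi ⟨u, hu⟩
    exact hclique _ _ h1 u v (mem_old.1 hu).1 (mem_old.1 hv).1 (h2 hu) (h2 hv) huv
  apply main0 (N := N) (fun i => B (nd i))
  · intro u v huv
    obtain ⟨x, hu, hv⟩ := hedge u v huv
    obtain ⟨i, hi, rfl⟩ := hnd x
    exact ⟨i, hi, hu, hv⟩
  · exact hcl
  · intro i hi hne
    obtain ⟨p, hp, -, h2⟩ := hpar i hi hne
    exact ⟨p, hp, h2⟩
  · intro i hi
    exact hpart (nd i) _ (fun e he => he.2.1) (fun e he => he.2.2.1)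
  · rintro i hi ⟨e, he⟩
    apply hadh (nd i) _ (Finset.filter_subset _ _) (hcl i hi)
    intro heq
    have hall : ∀ v ∈ e, v ∈ old (fun i => B (nd i)) i := by
      intro v hv
      have h1 : v ∈ B (nd i) := he.2.2.1 v hv
      have h2 : v ∈ (B (nd i)).filter (fun v => ∃ j < i, v ∈ (fun i => B (nd i)) j) := by
        rw [heq]; exact h1
      exact h2
    have hne : (old (fun i => B (nd i)) i).Nonempty := by
      induction e with
      | _ u v => exact ⟨u, hall u (Sym2.mem_mk_left u v)⟩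
    obtain ⟨p, hp, -, h2⟩ := hpar i hi hne
    exact he.2.2.2 p hp (fun v hv => h2 (hall v hv))

/-- a clique lies in a bag of a path decomposition -/
lemma helly {G : SimpleGraph V} {A : Finset V} {M : ℕ} (D : ℕ → Finset V)
    (hcov : ∀ u v, u ∈ A → v ∈ A → G.Adj u v → ∃ j < M, u ∈ D j ∧ v ∈ D j)
    (hconv : ∀ v i j l, i ≤ j → j ≤ l → l < M → v ∈ D i → v ∈ D l → v ∈ D j)
    {k : ℕ} (hcard : ∀ j < M, (D j).card ≤ k + 1) {S : Finset V} (hS : S ⊆ A)
    (hcl : ∀ u ∈ S, ∀ v ∈ S, u ≠ v → G.Adj u v) : S.card ≤ k + 1 := by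
  by_cases h1 : S.card ≤ 1
  · omega
  · rw [not_le, Finset.one_lt_card] at h1
    obtain ⟨a, ha, b, hb, hab⟩ := h1
    have hex : ∀ v ∈ S, ∃ j, j < M ∧ v ∈ D j := by
      intro v hv
      by_cases hva : v = a
      · subst hva
        obtain ⟨j, hj, h2, -⟩ := hcov v b (hS hv) (hS hb) (hcl v hv b hb hab)
        exact ⟨j, hj, h2⟩
      · obtain ⟨j, hj, h2, -⟩ := hcov v a (hS hv) (hS ha) (hcl v hv a ha hva)
        exact ⟨j, hj, h2⟩
    obtain ⟨l, hl⟩ : ∃ l : V → ℕ, ∀ v ∈ S, (l v < M ∧ v ∈ D (l v)) ∧ ∀ j, j < M → v ∈ D j → l v ≤ j := by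
      refine ⟨fun v => if h : ∃ j, j < M ∧ v ∈ D j then Nat.find h else 0, fun v hv => ?_⟩
      have h := hex v hv
      simp only [dif_pos h]
      exact ⟨Nat.find_spec h, fun j hj hvj => Nat.find_min' h ⟨hj, hvj⟩⟩
    obtain ⟨v, hv, hmax⟩ := Finset.exists_max_image S l ⟨a, ha⟩
    obtain ⟨⟨v1, v2⟩, v3⟩ := hl v hv
    refine (Finset.card_le_card ?_).trans (hcard (l v) v1)
    intro u hu
    by_cases huv : u = v
    · subst huv; exact v2
    · obtain ⟨j, hj, h3, h4⟩ := hcov u v (hS hu) (hS hv) (hcl u hu v hv huv)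
      exact hconv u (l u) (l v) j (hmax u hu) (v3 j hj h4) hj (hl u hu).1.2 h3

end Pool.Agent.K9h11.BN
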