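import Pool.Agent.K9h11.BN.I

/-! Chordal graphs. -/

set_option autoImplicit false

namespace Pool.Agent.K9h11.BN
open Finset
open Classical

variable {V : Type} [Fintype V]

/-- consecutive elements of `S` -/
def cons (ord : V → ℕ) (S : Finset V) (a b : V) : Prop :=
  a ∈ S ∧ b ∈ S ∧ ord a < ord b ∧ ∀ w ∈ S, ord a < ord w → ord b ≤ ord w

lemma consec (ord : V → ℕ) (hord : Function.Injective ord) (S : Finset V) :
    ∃ J : Finset (Sym2 V), (∀ κ ∈ J, ∃ a ∈ S, ∃ b ∈ S, a ≠ b ∧ κ = s(a, b)) ∧
      (∀ a, (J.filter (fun κ => a ∈ κ)).card ≤ 2) ∧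
      ∀ u ∈ S, (∃ u' ∈ S, ord u' < ord u) → ∃ u' ∈ S, ord u' < ord u ∧ s(u', u) ∈ J := by
  obtain ⟨J, hJ⟩ : ∃ J : Finset (Sym2 V), ∀ κ, κ ∈ J ↔ ∃ a b, κ = s(a, b) ∧ cons ord S a b :=
    ⟨univ.filter (fun κ => ∃ a b, κ = s(a, b) ∧ cons ord S a b), fun κ => by simp⟩
  refine ⟨J, ?_, ?_, ?_⟩
  · intro κ hκ
    obtain ⟨a, b, h1, h2, h3, h4, -⟩ := (hJ κ).1 hκ
    refine ⟨a, h2, b, h3, ?_, h1⟩
    rintro rfl
    exact lt_irrefl _ h4
  · intro a
    have hsub : J.filter (fun κ => a ∈ κ) ⊆
        (univ.filter (fun b => cons ord S a b)).image (fun b => s(a, b)) ∪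
        (univ.filter (fun b => cons ord S b a)).image (fun b => s(b, a)) := by
      intro κ hκ
      rw [mem_filter, hJ] at hκ
      obtain ⟨⟨x, y, rfl, h⟩, hx⟩ := hκ
      rw [mem_union, mem_image, mem_image]
      rw [Sym2.mem_iff] at hx
      rcases hx with rfl | rfl
      · exact Or.inl ⟨y, by rw [mem_filter]; exact ⟨mem_univ _, h⟩, rfl⟩
      · exact Or.inr ⟨x, by rw [mem_filter]; exact ⟨mem_univ _, h⟩, rfl⟩
    have h1 : (univ.filter (fun b => cons ord S a b)).card ≤ 1 := by
      rw [Finset.card_le_one]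
      intro x hx y hy
      rw [mem_filter] at hx hy
      obtain ⟨-, -, x1, x2, x3⟩ := hx
      obtain ⟨-, -, y1, y2, y3⟩ := hy
      exact hord (le_antisymm (x3 y y1 y2) (y3 x x1 x2))
    have h2 : (univ.filter (fun b => cons ord S b a)).card ≤ 1 := by
      rw [Finset.card_le_one]
      intro x hx y hy
      rw [mem_filter] at hx hy
      obtain ⟨-, x0, -, x2, x3⟩ := hx
      obtain ⟨-, y0, -, y2, y3⟩ := hy
      apply hord
      rcases lt_trichotomy (ord x) (ord y) with h | h | h
      · have := x3 y y0 h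
        omega
      · exact h
      · have := y3 x x0 h
        omega
    have h3 := Finset.card_le_card hsub
    have h4 := Finset.card_union_le ((univ.filter (fun b => cons ord S a b)).image (fun b => s(a, b)))
      ((univ.filter (fun b => cons ord S b a)).image (fun b => s(b, a)))
    have h5 : ((univ.filter (fun b => cons ord S a b)).image (fun b => s(a, b))).card ≤ _ :=
      Finset.card_image_le
    have h6 : ((univ.filter (fun b => cons ord S b a)).image (fun b => s(b, a))).card ≤ _ :=
      Finset.card_image_le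
    omega
  · rintro u hu ⟨u', hu', hlt⟩
    obtain ⟨x, hx, hmax⟩ := Finset.exists_max_image (S.filter (fun w => ord w < ord u)) ord
      ⟨u', mem_filter.2 ⟨hu', hlt⟩⟩
    rw [mem_filter] at hx
    refine ⟨x, hx.1, hx.2, (hJ _).2 ⟨x, u, rfl, hx.1, hu, hx.2, ?_⟩⟩
    intro w hw hxw
    by_contra hcon
    rw [not_le] at hcon
    have := hmax w (mem_filter.2 ⟨hw, hcon⟩)
    omega

/-- the star -/
def star (S : Finset V) (v : V) : Set (Sym2 V) := {e | ∃ u ∈ S, e = s(u, v)}

/-- the paths of length two -/
noncomputable def pp (S : Finset V) (v : V) (κ : Sym2 V) : W V :=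
  ∑ w ∈ S.filter (fun w => w ∈ κ), de s(w, v)

lemma pp_eq {S : Finset V} {v a b : V} (ha : a ∈ S) (hb : b ∈ S) (hab : a ≠ b) :
    pp S v s(a, b) = de s(a, v) + de s(b, v) := by
  unfold pp
  have h3 : S.filter (fun w => w ∈ s(a, b)) = {a, b} := by
    ext w
    simp only [mem_filter, Sym2.mem_iff, mem_insert, mem_singleton]
    constructor
    · exact fun h => h.2
    · rintro (rfl | rfl)
      · exact ⟨ha, Or.inl rfl⟩
      · exact ⟨hb, Or.inr rfl⟩
  rw [h3, Finset.sum_pair hab]

lemma star_apply {S : Finset V} {v : V} (hv : v ∉ S) {y : W V} (hy : y ∈ Sup (star S v)) {u : V}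
    (hu : u ∈ S) : bd y u = y s(u, v) := by
  rw [bd_apply]
  apply Finset.sum_eq_single
  · intro e he hne
    rw [mem_filter] at he
    by_contra h
    have : e ∈ star S v := by
      by_contra h2
      exact h (hy e h2)
    obtain ⟨w, hw, rfl⟩ := this
    have h3 := he.2
    rw [Sym2.mem_iff] at h3
    rcases h3 with rfl | rfl
    · exact hne rfl
    · exact hv hu
  · intro h
    exact absurd (mem_filter.2 ⟨mem_univ (s(u, v) : Sym2 V), Sym2.mem_mk_left u v⟩) h

lemma star_centre {S : Finset V} {v : V} {y : W V} (hy : y ∈ Sup (star S v)) :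
    bd y v = ∑ w ∈ S, y s(w, v) := by
  have h1 : ∑ w ∈ S, y s(w, v) = ∑ e ∈ S.image (fun w => s(w, v)), y e := by
    rw [Finset.sum_image]
    intro a ha b hb h
    have h2 : s(a, v) = s(b, v) := h
    rw [Sym2.eq_iff] at h2
    rcases h2 with h2 | h2
    · exact h2.1
    · exact h2.1.trans h2.2
  rw [h1, bd_apply]
  symm
  apply Finset.sum_subset
  · intro e he
    rw [mem_image] at he
    obtain ⟨w, -, rfl⟩ := he
    exact mem_filter.2 ⟨mem_univ _, Sym2.mem_mk_right w v⟩
  · intro e _ he
    apply hy
    rintro ⟨w, hw, rfl⟩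
    exact he (mem_image.2 ⟨w, hw, rfl⟩)

lemma star_span (ord : V → ℕ) (hord : Function.Injective ord) {S : Finset V} {v : V} (hv : v ∉ S)
    {J : Finset (Sym2 V)}
    (hJ : ∀ u ∈ S, (∃ u' ∈ S, ord u' < ord u) → ∃ u' ∈ S, ord u' < ord u ∧ s(u', u) ∈ J)
    {y : W V} (hy : y ∈ Sup (star S v)) (hyv : bd y v = 0) :
    y ∈ Submodule.span (ZMod 2) (pp S v '' (J : Set (Sym2 V))) := by
  have key : ∀ n, ∀ y ∈ Sup (star S v), bd y v = 0 → (∀ w ∈ S, y s(w, v) ≠ 0 → ord w < n) →
      y ∈ Submodule.span (ZMod 2) (pp S v '' (J : Set (Sym2 V))) := by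
    intro n
    induction n with
    | zero =>
      intro y hy _ h
      have : y = 0 := by
        funext e
        by_contra h2
        have h3 : e ∈ star S v := by
          by_contra h4
          exact h2 (hy e h4)
        obtain ⟨w, hw, rfl⟩ := h3
        exact absurd (h w hw h2) (Nat.not_lt_zero _)
      rw [this]
      exact Submodule.zero_mem _
    | succ n ih =>
      intro y hy hyv h
      by_cases hex : ∃ u ∈ S, y s(u, v) ≠ 0 ∧ ord u = n
      · obtain ⟨u, hu, hyu, hun⟩ := hex
        have hex2 : ∃ u' ∈ S, ord u' < ord u := by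
          by_contra hcon
          push Not at hcon
          rw [star_centre hy, Finset.sum_eq_single u] at hyv
          · exact hyu hyv
          · intro w hw hwu
            by_contra h4
            have h5 := h w hw h4
            have h6 := hcon w hw
            exact hwu (hord (by omega))
          · exact fun h4 => absurd hu h4
        obtain ⟨u', hu', hlt, hJu⟩ := hJ u hu hex2
        have hne : u' ≠ u := by
          rintro rfl
          exact lt_irrefl _ hlt
        have hpin : pp S v s(u', u) ∈ Submodule.span (ZMod 2) (pp S v '' (J : Set (Sym2 V))) :=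
          Submodule.subset_span ⟨_, Finset.mem_coe.2 hJu, rfl⟩
        have hvu : ∀ w ∈ S, w ≠ v := fun w hw h => hv (h ▸ hw)
        have h7 : y + pp S v s(u', u) ∈
            Submodule.span (ZMod 2) (pp S v '' (J : Set (Sym2 V))) := by
          rw [pp_eq hu' hu hne]
          apply ih
          · refine Submodule.add_mem _ hy (Submodule.add_mem _ (de_mem ⟨u', hu', rfl⟩)
              (de_mem ⟨u, hu, rfl⟩))
          · rw [map_add, map_add, bd_de (hvu u' hu'), bd_de (hvu u hu), Pi.add_apply, hyv,
              Pi.add_apply, Pi.add_apply, Pi.add_apply, iv_apply, iv_apply, iv_apply,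
              if_neg (hvu u' hu').symm, if_neg (hvu u hu).symm, if_pos rfl]
            decide
          · intro w hw h8
            rw [Pi.add_apply, Pi.add_apply, de_apply, de_apply] at h8
            have inj : ∀ a b : V, s(a, v) = s(b, v) → a = b := by
              intro a b h9
              rw [Sym2.eq_iff] at h9
              rcases h9 with h9 | h9
              · exact h9.1
              · exact h9.1.trans h9.2
            by_cases h9 : w = u'
            · subst h9; omega
            · rw [if_neg (fun h => h9 (inj _ _ h)), zero_add] at h8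
              by_cases h10 : w = u
              · subst h10
                rw [if_pos rfl, ne_zero_iff_one.1 hyu] at h8
                exact absurd (by decide) h8
              · rw [if_neg (fun h => h10 (inj _ _ h)), add_zero] at h8
                have h11 := h w hw h8
                have h12 : ord w ≠ ord u := fun h => h10 (hord h)
                omega
        have h8 := Submodule.add_mem _ h7 hpin
        rw [add_assoc, self_add_v, add_zero] at h8
        exact h8
      · apply ih y hy hyv
        intro w hw h4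
        have h5 := h w hw h4
        have h6 : ord w ≠ n := fun h => hex ⟨w, hw, h4, h⟩
        omega
  exact key (univ.sup ord + 1) y hy hyv
    (fun w _ _ => Nat.lt_succ_of_le (Finset.le_sup (mem_univ w)))

/-- the edges whose last vertex has position `i` -/
def layer (H : SimpleGraph V) (ord : V → ℕ) (i : ℕ) : Set (Sym2 V) :=
  {e | ∃ u v, e = s(u, v) ∧ H.Adj u v ∧ ord u < ord v ∧ ord v = i}

theorem chordalMain {H : SimpleGraph V} (ord : V → ℕ) (hord : Function.Injective ord)
    (hpeo : ∀ u v w, H.Adj u w → H.Adj v w → ord u < ord w → ord v < ord w → u ≠ v →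
      H.Adj u v) : SpanPly (Cyc H.edgeSet) 5 := by
  have hJp : ∀ i, ∃ (J : Finset (Sym2 V)) (p : Sym2 V → W V),
      (∀ κ ∈ J, ∃ j < i, κ ∈ layer H ord j) ∧
      (∀ κ ∈ J, p κ ∈ Sup (layer H ord i) ∧ bd (p κ) = bd (de κ)) ∧
      (∀ x ∈ Cyc (⋃ j ∈ {j | j < i + 1}, layer H ord j), res (layer H ord i) x ∈
        Cyc (layer H ord i) ⊔ Submodule.span (ZMod 2) (p '' (J : Set (Sym2 V)))) ∧
      (∀ e ∈ layer H ord i, (J.filter (fun κ => p κ e ≠ 0)).card ≤ 2) ∧
      Cyc (layer H ord i) = ⊥ := by
    intro i
    by_cases hi : ∃ v, ord v = i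
    · obtain ⟨v, rfl⟩ := hi
      obtain ⟨S, hS⟩ : ∃ S : Finset V, ∀ u, u ∈ S ↔ H.Adj u v ∧ ord u < ord v :=
        ⟨univ.filter (fun u => H.Adj u v ∧ ord u < ord v), fun u => by simp⟩
      have hvS : v ∉ S := fun h => lt_irrefl _ ((hS v).1 h).2
      have hl : layer H ord (ord v) = star S v := by
        ext e
        constructor
        · rintro ⟨a, b, rfl, h1, h2, h3⟩
          have := hord h3
          subst this
          exact ⟨a, (hS a).2 ⟨h1, h2⟩, rfl⟩
        · rintro ⟨u, hu, rfl⟩
          obtain ⟨h1, h2⟩ := (hS u).1 hu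
          exact ⟨u, v, rfl, h1, h2, rfl⟩
      obtain ⟨J, hJ1, hJ2, hJ3⟩ := consec ord hord S
      have hadj : ∀ a ∈ S, ∀ b ∈ S, a ≠ b → H.Adj a b := by
        intro a ha b hb hab
        obtain ⟨a1, a2⟩ := (hS a).1 ha
        obtain ⟨b1, b2⟩ := (hS b).1 hb
        exact hpeo a b v a1 b1 a2 b2 hab
      have hne : ∀ w ∈ S, w ≠ v := fun w hw h => hvS (h ▸ hw)
      rw [hl]
      refine ⟨J, pp S v, ?_, ?_, ?_, ?_, ?_⟩
      · intro κ hκ
        obtain ⟨a, ha, b, hb, hab, rfl⟩ := hJ1 κ hκ
        rcases lt_trichotomy (ord a) (ord b) with h | h | h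
        · exact ⟨ord b, ((hS b).1 hb).2, a, b, rfl, hadj a ha b hb hab, h, rfl⟩
        · exact absurd (hord h) hab
        · exact ⟨ord a, ((hS a).1 ha).2, b, a, Sym2.eq_swap, hadj b hb a ha hab.symm, h, rfl⟩
      · intro κ hκ
        obtain ⟨a, ha, b, hb, hab, rfl⟩ := hJ1 κ hκ
        rw [pp_eq ha hb hab]
        refine ⟨Submodule.add_mem _ (de_mem ⟨a, ha, rfl⟩) (de_mem ⟨b, hb, rfl⟩), ?_⟩
        rw [map_add, bd_de (hne a ha), bd_de (hne b hb), bd_de hab]
        have : iv a + iv v + (iv b + iv v) = iv a + iv b + (iv v + iv v) := by abel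
        rw [this, self_add_iv, add_zero]
      · intro x hx
        apply Submodule.mem_sup_right
        refine star_span ord hord hvS hJ3 (res_mem _ _) ?_
        rw [mem_Cyc] at hx
        rw [← hx.2 v, bd_apply, bd_apply]
        apply Finset.sum_congr rfl
        intro e he
        rw [mem_filter] at he
        rw [res_apply]
        split_ifs with h
        · rfl
        · symm
          apply hx.1
          intro h2
          simp only [Set.mem_setOf_eq, Set.mem_iUnion] at h2
          obtain ⟨j, hj, a, b, rfl, h3, h4, h5⟩ := h2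
          have h6 := he.2
          rw [Sym2.mem_iff] at h6
          rcases h6 with rfl | rfl
          · omega
          · exact h ⟨a, (hS a).2 ⟨h3, h4⟩, rfl⟩
      · rintro e ⟨w, hw, rfl⟩
        refine (Finset.card_le_card ?_).trans (hJ2 w)
        intro κ hκ
        rw [mem_filter] at hκ ⊢
        refine ⟨hκ.1, ?_⟩
        by_contra h
        apply hκ.2
        unfold pp
        rw [Finset.sum_apply]
        apply Finset.sum_eq_zero
        intro u hu
        rw [mem_filter] at hu
        rw [de_apply, if_neg]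
        intro h1
        rw [Sym2.eq_iff] at h1
        rcases h1 with h1 | h1
        · exact h (h1.1 ▸ hu.2)
        · exact hne w hw h1.1
      · rw [eq_bot_iff]
        intro y hy
        obtain ⟨y1, y2⟩ := Submodule.mem_inf.1 hy
        rw [LinearMap.mem_ker] at y2
        rw [Submodule.mem_bot]
        funext e
        by_contra h2
        have h3 : e ∈ star S v := by
          by_contra h4
          exact h2 (y1 e h4)
        obtain ⟨w, hw, rfl⟩ := h3
        have h4 := star_apply hvS y1 hw
        rw [y2] at h4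
        exact h2 h4.symm
    · have hempty : layer H ord i = ∅ := by
        rw [Set.eq_empty_iff_forall_notMem]
        rintro e ⟨u, v, -, -, -, h⟩
        exact hi ⟨v, h⟩
      have hz : ∀ y ∈ Sup (layer H ord i), y = 0 := by
        intro y hy
        funext e
        apply hy
        rw [hempty]
        exact fun h => h
      refine ⟨∅, 0, by simp, by simp, ?_, by simp, ?_⟩
      · intro x _
        rw [hz _ (res_mem _ x)]
        exact Submodule.zero_mem _
      · rw [eq_bot_iff]
        intro y hy
        rw [Submodule.mem_bot]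
        exact hz y (Submodule.mem_inf.1 hy).1
  choose J p hJ1 hJ2 hJ3 hJ4 hJ5 using hJp
  have hU : (⋃ j ∈ {j | j < univ.sup ord + 1}, layer H ord j) = H.edgeSet := by
    ext e
    simp only [Set.mem_setOf_eq, Set.mem_iUnion]
    constructor
    · rintro ⟨i, -, u, v, rfl, h, -, -⟩
      exact h
    · intro he
      induction e with
      | _ u v =>
        have huv : H.Adj u v := he
        rcases lt_trichotomy (ord u) (ord v) with h | h | h
        · exact ⟨ord v, Nat.lt_succ_of_le (Finset.le_sup (mem_univ v)), u, v, rfl, huv, h, rfl⟩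
        · exact absurd (hord h) huv.ne
        · exact ⟨ord u, Nat.lt_succ_of_le (Finset.le_sup (mem_univ u)), v, u, Sym2.eq_swap,
            huv.symm, h, rfl⟩
  rw [← hU]
  refine assemble (univ.sup ord + 1) 0 2 (layer H ord) J p (fun _ => ∅) ?_ hJ1 hJ2 ?_ ?_ hJ3 hJ4
  · rintro i j e ⟨u, v, rfl, h1, h2, h3⟩ ⟨a, b, h4, h5, h6, h7⟩
    rw [Sym2.eq_iff] at h4
    rcases h4 with ⟨rfl, rfl⟩ | ⟨rfl, rfl⟩
    · omega
    · omega
  · intro i
    rw [hJ5 i]
    simp
  · intro i e
    simp

end Pool.Agent.K9h11.BN
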