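import Pool.Agent.K9h11.BN.L

/-! Depth first orders and paths of congestion two. -/

set_option autoImplicit false

namespace Pool.Agent.K9h11.BN
open Finset
open Classical

variable {V : Type} [Fintype V]

/-- a depth first order on `X` with the root paths `R` and the roots `ρ` -/
def Good (E : Set (Sym2 V)) (X : Finset V) (R : V → W V) (ρ : V → V) (f : V → ℕ) : Prop :=
  (∀ x ∈ X, ρ x ∈ X) ∧
  (∀ x ∈ X, R x ∈ Sup E ∧ bd (R x) = iv x + iv (ρ x)) ∧
  (∀ x ∈ X, ∀ e, R x e ≠ 0 → ∀ w ∈ e, w ∈ X) ∧
  (∀ x ∈ X, ∀ y ∈ X, f x = f y → x = y) ∧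
  (∀ a ∈ X, ∀ b ∈ X, ∀ c ∈ X, f a ≤ f b → f b ≤ f c → ∀ e, R a e ≠ 0 → R c e ≠ 0 →
    R b e ≠ 0) ∧
  (∀ a ∈ X, ∀ b ∈ X, ∀ c ∈ X, f a ≤ f b → f b ≤ f c → ρ a = ρ c → ρ b = ρ a) ∧
  (∀ x ∈ X, ∀ y ∈ X, conn E x y → ρ x = ρ y)

/-- adding a leaf -/
lemma Good.leaf {E : Set (Sym2 V)} (hE : ∀ e ∈ E, ¬ e.IsDiag) {X : Finset V} {R : V → W V}
    {ρ : V → V} {f : V → ℕ} (h : Good E X R ρ f) {u v : V} (hu : u ∈ X) (hv : v ∉ X)
    (huv : s(u, v) ∈ E) : ∃ R' ρ' f', Good E (insert v X) R' ρ' f' := by
  obtain ⟨h1, h2, h3, h4, h5, h6, h7⟩ := h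
  have huv' : u ≠ v := fun h => hv (h ▸ hu)
  obtain ⟨π, hπ⟩ : ∃ π : V → V, π = fun x => if x = v then u else x := ⟨_, rfl⟩
  have hπv : π v = u := by rw [hπ]; simp
  have hπx : ∀ x, x ≠ v → π x = x := by
    intro x hx
    rw [hπ]
    simp [hx]
  have hπX : ∀ x ∈ insert v X, π x ∈ X := by
    intro x hx
    rw [mem_insert] at hx
    by_cases hxv : x = v
    · rw [hxv, hπv]; exact hu
    · rw [hπx x hxv]; exact hx.resolve_left hxv
  refine ⟨fun x => R (π x) + if x = v then de s(u, v) else 0, fun x => ρ (π x),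
    fun x => 2 * f (π x) + if x = v then 1 else 0, ?_, ?_, ?_, ?_, ?_, ?_, ?_⟩
  · intro x hx
    exact mem_insert_of_mem (h1 _ (hπX x hx))
  · intro x hx
    obtain ⟨g1, g2⟩ := h2 _ (hπX x hx)
    by_cases hxv : x = v
    · subst hxv
      simp only [if_true]
      refine ⟨Submodule.add_mem _ g1 (de_mem huv), ?_⟩
      rw [map_add, g2, bd_de huv', hπv]
      have : iv u + iv (ρ u) + (iv u + iv x) = iv x + iv (ρ u) + (iv u + iv u) := by abel
      rw [this, self_add_iv, add_zero]
    · simp only [hxv, if_false, add_zero]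
      refine ⟨g1, ?_⟩
      rw [g2, hπx x hxv]
  · intro x hx e he w hw
    by_cases hz : R (π x) e = 0
    · by_cases hxv : x = v
      · simp only [hxv, if_true, Pi.add_apply] at he
        rw [← hxv, hz, zero_add, de_apply] at he
        have he2 : e = s(u, x) := by
          by_contra h8
          rw [if_neg h8] at he
          exact he rfl
        rw [he2, Sym2.mem_iff] at hw
        rcases hw with rfl | rfl
        · exact mem_insert_of_mem hu
        · rw [hxv]; exact mem_insert_self _ _
      · simp only [hxv, if_false, add_zero] at he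
        exact absurd hz he
    · exact mem_insert_of_mem (h3 _ (hπX x hx) e hz w hw)
  · intro x hx y hy hxy
    have hxy' : 2 * f (π x) + (if x = v then 1 else 0) = 2 * f (π y) + (if y = v then 1 else 0) :=
      hxy
    by_cases hxv : x = v
    · by_cases hyv : y = v
      · rw [hxv, hyv]
      · rw [if_pos hxv, if_neg hyv] at hxy'
        omega
    · by_cases hyv : y = v
      · rw [if_neg hxv, if_pos hyv] at hxy'
        omega
      · rw [if_neg hxv, if_neg hyv, hπx x hxv, hπx y hyv] at hxy'
        rw [mem_insert] at hx hy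
        exact h4 x (hx.resolve_left hxv) y (hy.resolve_left hyv) (by omega)
  · intro a ha b hb c hc hab hbc e hae hce
    have hab' : 2 * f (π a) + (if a = v then 1 else 0) ≤ 2 * f (π b) + (if b = v then 1 else 0) :=
      hab
    have hbc' : 2 * f (π b) + (if b = v then 1 else 0) ≤ 2 * f (π c) + (if c = v then 1 else 0) :=
      hbc
    have q1 : f (π a) ≤ f (π b) := by split_ifs at hab' <;> omega
    have q2 : f (π b) ≤ f (π c) := by split_ifs at hbc' <;> omega
    change (R (π a) + if a = v then de s(u, v) else 0 : W V) e ≠ 0 at hae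
    change (R (π c) + if c = v then de s(u, v) else 0 : W V) e ≠ 0 at hce
    change (R (π b) + if b = v then de s(u, v) else 0 : W V) e ≠ 0
    by_cases he : e = s(u, v)
    · have hz : ∀ x ∈ X, R x e = 0 := by
        intro x hx
        by_contra h8
        apply hv
        apply h3 x hx e h8
        rw [he]
        exact Sym2.mem_mk_right u v
      have hav : a = v := by
        by_contra h8
        rw [if_neg h8, add_zero, hz _ (hπX a ha)] at hae
        exact hae rfl
      have hcv : c = v := by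
        by_contra h8
        rw [if_neg h8, add_zero, hz _ (hπX c hc)] at hce
        exact hce rfl
      have hbv : b = v := by
        by_contra h8
        rw [hav, if_pos rfl, if_neg h8] at hab'
        rw [hcv, if_pos rfl, if_neg h8] at hbc'
        rw [hπv] at hab' hbc'
        omega
      rw [hbv, ← hav]
      rw [if_pos hav] at hae
      rw [if_pos rfl]
      rw [hav] at hae ⊢
      exact hae
    · have hR : ∀ x, (R (π x) + if x = v then de s(u, v) else 0 : W V) e = R (π x) e := by
        intro x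
        rw [Pi.add_apply]
        by_cases hx : x = v
        · rw [if_pos hx, de_apply, if_neg he, add_zero]
        · rw [if_neg hx]
          exact add_zero _
      rw [hR] at hae hce ⊢
      exact h5 _ (hπX a ha) _ (hπX b hb) _ (hπX c hc) q1 q2 e hae hce
  · intro a ha b hb c hc hab hbc hac
    have hab' : 2 * f (π a) + (if a = v then 1 else 0) ≤ 2 * f (π b) + (if b = v then 1 else 0) :=
      hab
    have hbc' : 2 * f (π b) + (if b = v then 1 else 0) ≤ 2 * f (π c) + (if c = v then 1 else 0) :=
      hbc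
    have q1 : f (π a) ≤ f (π b) := by split_ifs at hab' <;> omega
    have q2 : f (π b) ≤ f (π c) := by split_ifs at hbc' <;> omega
    exact h6 _ (hπX a ha) _ (hπX b hb) _ (hπX c hc) q1 q2 hac
  · intro x hx y hy hxy
    apply h7 _ (hπX x hx) _ (hπX y hy)
    have hc : ∀ z, conn E (π z) z := by
      intro z
      by_cases hz : z = v
      · rw [hz, hπv]; exact conn_edge hE huv
      · rw [hπx z hz]; exact conn_refl _ _
    exact conn_trans (hc x) (conn_trans hxy (conn_symm (hc y)))

/-- adding a root -/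
lemma Good.root {E : Set (Sym2 V)} (hE : ∀ e ∈ E, ¬ e.IsDiag) {X : Finset V} {R : V → W V}
    {ρ : V → V} {f : V → ℕ} (h : Good E X R ρ f) {v : V} (hv : v ∉ X)
    (hcl : ∀ a b, s(a, b) ∈ E → a ∈ X → b ∈ X) : ∃ R' ρ' f', Good E (insert v X) R' ρ' f' := by
  obtain ⟨h1, h2, h3, h4, h5, h6, h7⟩ := h
  have hne : ∀ x ∈ X, x ≠ v := fun x hx h => hv (h ▸ hx)
  obtain ⟨m, hm⟩ : ∃ m, m = X.sup f + 1 := ⟨_, rfl⟩
  have hfm : ∀ x ∈ X, f x < m := by
    intro x hx
    have : f x ≤ X.sup f := Finset.le_sup hx
    omega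
  have hnc : ∀ x ∈ X, ¬ conn E x v := by
    rintro x hx ⟨q, hq, hq2⟩
    have h8 := parity hE hq X (fun a b hab => ⟨hcl a b hab, fun hb => by
      rw [Sym2.eq_swap] at hab
      exact hcl b a hab hb⟩)
    rw [Finset.sum_eq_single x] at h8
    · rw [hq2, Pi.add_apply, iv_apply, iv_apply, if_pos rfl, if_neg (hne x hx)] at h8
      exact absurd h8 (by decide)
    · intro y hy hyx
      rw [hq2, Pi.add_apply, iv_apply, iv_apply, if_neg hyx, if_neg (hne y hy), add_zero]
    · exact fun h => absurd hx h
  have hρv : ∀ x ∈ X, ρ x ≠ v := fun x hx => hne _ (h1 x hx)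
  refine ⟨fun x => if x = v then 0 else R x, fun x => if x = v then v else ρ x,
    fun x => if x = v then m else f x, ?_, ?_, ?_, ?_, ?_, ?_, ?_⟩
  · intro x hx
    rw [mem_insert] at hx
    by_cases hxv : x = v
    · simp only [hxv, if_true]; exact mem_insert_self _ _
    · simp only [hxv, if_false]; exact mem_insert_of_mem (h1 x (hx.resolve_left hxv))
  · intro x hx
    rw [mem_insert] at hx
    by_cases hxv : x = v
    · simp only [hxv, if_true]
      exact ⟨Submodule.zero_mem _, by rw [map_zero, self_add_iv]⟩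
    · simp only [hxv, if_false]
      exact h2 x (hx.resolve_left hxv)
  · intro x hx e he w hw
    rw [mem_insert] at hx
    by_cases hxv : x = v
    · simp only [hxv, if_true] at he
      exact absurd rfl he
    · simp only [hxv, if_false] at he
      exact mem_insert_of_mem (h3 x (hx.resolve_left hxv) e he w hw)
  · intro x hx y hy hxy
    rw [mem_insert] at hx hy
    have hxy' : (if x = v then m else f x) = (if y = v then m else f y) := hxy
    by_cases hxv : x = v
    · by_cases hyv : y = v
      · rw [hxv, hyv]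
      · rw [if_pos hxv, if_neg hyv] at hxy'
        have := hfm y (hy.resolve_left hyv)
        omega
    · by_cases hyv : y = v
      · rw [if_neg hxv, if_pos hyv] at hxy'
        have := hfm x (hx.resolve_left hxv)
        omega
      · rw [if_neg hxv, if_neg hyv] at hxy'
        exact h4 x (hx.resolve_left hxv) y (hy.resolve_left hyv) hxy'
  · intro a ha b hb c hc hab hbc e hae hce
    rw [mem_insert] at ha hb hc
    have hab' : (if a = v then m else f a) ≤ (if b = v then m else f b) := hab
    have hbc' : (if b = v then m else f b) ≤ (if c = v then m else f c) := hbc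
    change (if a = v then 0 else R a : W V) e ≠ 0 at hae
    change (if c = v then 0 else R c : W V) e ≠ 0 at hce
    change (if b = v then 0 else R b : W V) e ≠ 0
    by_cases hav : a = v
    · rw [if_pos hav] at hae
      exact absurd rfl hae
    by_cases hcv : c = v
    · rw [if_pos hcv] at hce
      exact absurd rfl hce
    rw [if_neg hav] at hae hab'
    rw [if_neg hcv] at hce hbc'
    have hbv : b ≠ v := by
      intro hbv
      rw [if_pos hbv] at hbc'
      have := hfm c (hc.resolve_left hcv)
      omega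
    rw [if_neg hbv] at hab' hbc' ⊢
    exact h5 a (ha.resolve_left hav) b (hb.resolve_left hbv) c (hc.resolve_left hcv) hab' hbc' e
      hae hce
  · intro a ha b hb c hc hab hbc hac
    rw [mem_insert] at ha hb hc
    have hab' : (if a = v then m else f a) ≤ (if b = v then m else f b) := hab
    have hbc' : (if b = v then m else f b) ≤ (if c = v then m else f c) := hbc
    change (if a = v then v else ρ a) = (if c = v then v else ρ c) at hac
    change (if b = v then v else ρ b) = (if a = v then v else ρ a)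
    by_cases hav : a = v
    · have hbv : b = v := by
        by_contra hbv
        rw [if_pos hav, if_neg hbv] at hab'
        have := hfm b (hb.resolve_left hbv)
        omega
      rw [if_pos hav, if_pos hbv]
    · by_cases hcv : c = v
      · rw [if_neg hav, if_pos hcv] at hac
        exact absurd hac (hρv a (ha.resolve_left hav))
      · rw [if_neg hav] at hac hab' ⊢
        rw [if_neg hcv] at hac hbc'
        have hbv : b ≠ v := by
          intro hbv
          rw [if_pos hbv] at hbc'
          have := hfm c (hc.resolve_left hcv)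
          omega
        rw [if_neg hbv] at hab' hbc' ⊢
        exact h6 a (ha.resolve_left hav) b (hb.resolve_left hbv) c (hc.resolve_left hcv) hab' hbc'
          hac
  · intro x hx y hy hxy
    rw [mem_insert] at hx hy
    change (if x = v then v else ρ x) = (if y = v then v else ρ y)
    by_cases hxv : x = v
    · by_cases hyv : y = v
      · rw [if_pos hxv, if_pos hyv]
      · exfalso
        rw [hxv] at hxy
        exact hnc y (hy.resolve_left hyv) (conn_symm hxy)
    · by_cases hyv : y = v
      · exfalso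
        rw [hyv] at hxy
        exact hnc x (hx.resolve_left hxv) hxy
      · rw [if_neg hxv, if_neg hyv]
        exact h7 x (hx.resolve_left hxv) y (hy.resolve_left hyv) hxy

theorem dfs {E : Set (Sym2 V)} (hE : ∀ e ∈ E, ¬ e.IsDiag) :
    ∃ R ρ f, Good E (univ : Finset V) R ρ f := by
  have key : ∀ n ≤ Fintype.card V, ∃ X : Finset V, X.card = n ∧ ∃ R ρ f, Good E X R ρ f := by
    intro n
    induction n with
    | zero =>
      intro _
      refine ⟨∅, by simp, fun _ => 0, id, fun _ => 0, ?_⟩
      unfold Good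
      simp
    | succ n ih =>
      intro hn
      obtain ⟨X, hX, R, ρ, f, h⟩ := ih (by omega)
      by_cases hex : ∃ u v, s(u, v) ∈ E ∧ u ∈ X ∧ v ∉ X
      · obtain ⟨u, v, huv, hu, hv⟩ := hex
        exact ⟨insert v X, by rw [Finset.card_insert_of_notMem hv, hX], h.leaf hE hu hv huv⟩
      · obtain ⟨v, hv⟩ : ∃ v, v ∉ X := by
          by_contra hcon
          push Not at hcon
          have : X = univ := Finset.eq_univ_iff_forall.2 hcon
          rw [this, Finset.card_univ] at hX
          omega
        refine ⟨insert v X, by rw [Finset.card_insert_of_notMem hv, hX], h.root hE hv ?_⟩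
        intro a b hab ha
        by_contra hb
        exact hex ⟨a, b, hab, ha, hb⟩
  obtain ⟨X, hX, h⟩ := key _ le_rfl
  have : X = univ := (Finset.card_eq_iff_eq_univ X).1 hX
  rw [this] at h
  exact h

theorem rel2 {E : Set (Sym2 V)} (hE : ∀ e ∈ E, ¬ e.IsDiag) (S : Finset V) :
    ∃ (J : Finset (Sym2 V)) (p : Sym2 V → W V),
      (∀ κ ∈ J, ∃ a ∈ S, ∃ b ∈ S, a ≠ b ∧ κ = s(a, b)) ∧
      (∀ κ ∈ J, p κ ∈ Sup E ∧ bd (p κ) = bd (de κ)) ∧
      (∀ e, (J.filter (fun κ => p κ e ≠ 0)).card ≤ 2) ∧
      ∀ y ∈ Sup E, (∀ v, bd y v ≠ 0 → v ∈ S) →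
        y ∈ Cyc E ⊔ Submodule.span (ZMod 2) (p '' (J : Set (Sym2 V))) := by
  obtain ⟨R, ρ, f, -, h2, -, h4, h5, h6, h7⟩ := dfs hE
  have hf : Function.Injective f := fun x y h => h4 x (mem_univ x) y (mem_univ y) h
  have hR : ∀ x, R x ∈ Sup E ∧ bd (R x) = iv x + iv (ρ x) := fun x => h2 x (mem_univ x)
  have hZ : ∀ a b c, f a ≤ f b → f b ≤ f c → ∀ e, R a e ≠ 0 → R c e ≠ 0 → R b e ≠ 0 :=
    fun a b c => h5 a (mem_univ a) b (mem_univ b) c (mem_univ c)
  have hρ : ∀ a b c, f a ≤ f b → f b ≤ f c → ρ a = ρ c → ρ b = ρ a :=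
    fun a b c => h6 a (mem_univ a) b (mem_univ b) c (mem_univ c)
  have hcn : ∀ x y, conn E x y → ρ x = ρ y := fun x y => h7 x (mem_univ x) y (mem_univ y)
  clear h2 h4 h5 h6 h7
  obtain ⟨J, hJ⟩ : ∃ J : Finset (Sym2 V), ∀ κ, κ ∈ J ↔
      ∃ a b, κ = s(a, b) ∧ cons f S a b ∧ ρ a = ρ b :=
    ⟨univ.filter (fun κ => ∃ a b, κ = s(a, b) ∧ cons f S a b ∧ ρ a = ρ b), fun κ => by simp⟩
  obtain ⟨p, hp⟩ : ∃ p : Sym2 V → W V, ∀ a b, a ≠ b → p s(a, b) = R a + R b := by
    refine ⟨fun κ => ∑ w ∈ univ.filter (fun w => w ∈ κ), R w, fun a b hab => ?_⟩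
    have h3 : univ.filter (fun w => w ∈ s(a, b)) = {a, b} := by
      ext w
      simp only [mem_filter, mem_univ, true_and, Sym2.mem_iff, mem_insert, mem_singleton]
    show ∑ w ∈ univ.filter (fun w => w ∈ s(a, b)), R w = _
    rw [h3, Finset.sum_pair hab]
  have hne : ∀ a b, cons f S a b → a ≠ b := by
    rintro a b ⟨-, -, h, -⟩ rfl
    exact lt_irrefl _ h
  have hpJ : ∀ κ ∈ J, p κ ∈ Sup E ∧ bd (p κ) = bd (de κ) := by
    intro κ hκ
    obtain ⟨a, b, rfl, hab, hr⟩ := (hJ κ).1 hκ
    rw [hp a b (hne a b hab)]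
    refine ⟨Submodule.add_mem _ (hR a).1 (hR b).1, ?_⟩
    rw [map_add, (hR a).2, (hR b).2, bd_de (hne a b hab), hr]
    have : iv a + iv (ρ b) + (iv b + iv (ρ b)) = iv a + iv b + (iv (ρ b) + iv (ρ b)) := by abel
    rw [this, self_add_iv, add_zero]
  refine ⟨J, p, ?_, hpJ, ?_, ?_⟩
  · intro κ hκ
    obtain ⟨a, b, rfl, hab, -⟩ := (hJ κ).1 hκ
    exact ⟨a, hab.1, b, hab.2.1, hne a b hab, rfl⟩
  · intro e
    obtain ⟨A, hA⟩ : ∃ A : Finset (Sym2 V), ∀ κ, κ ∈ A ↔
        ∃ a b, κ = s(a, b) ∧ cons f S a b ∧ R a e = 0 ∧ R b e ≠ 0 :=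
      ⟨univ.filter (fun κ => ∃ a b, κ = s(a, b) ∧ cons f S a b ∧ R a e = 0 ∧ R b e ≠ 0),
        fun κ => by simp⟩
    obtain ⟨A', hA'⟩ : ∃ A : Finset (Sym2 V), ∀ κ, κ ∈ A ↔
        ∃ a b, κ = s(a, b) ∧ cons f S a b ∧ R a e ≠ 0 ∧ R b e = 0 :=
      ⟨univ.filter (fun κ => ∃ a b, κ = s(a, b) ∧ cons f S a b ∧ R a e ≠ 0 ∧ R b e = 0),
        fun κ => by simp⟩
    have hsub : J.filter (fun κ => p κ e ≠ 0) ⊆ A ∪ A' := by
      intro κ hκ
      rw [mem_filter, hJ] at hκ
      obtain ⟨⟨a, b, rfl, hab, -⟩, h⟩ := hκ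
      rw [hp a b (hne a b hab), Pi.add_apply] at h
      rw [mem_union, hA, hA']
      by_cases h8 : R a e = 0
      · left
        rw [h8, zero_add] at h
        exact ⟨a, b, rfl, hab, h8, h⟩
      · right
        refine ⟨a, b, rfl, hab, h8, ?_⟩
        by_contra h9
        rw [ne_zero_iff_one.1 h8, ne_zero_iff_one.1 h9] at h
        exact h (self_add _)
    have huniq1 : ∀ a a' b, cons f S a b → cons f S a' b → a = a' := by
      intro a a' b h h'
      apply hf
      obtain ⟨x1, x2, x3, x4⟩ := h
      obtain ⟨y1, y2, y3, y4⟩ := h'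
      rcases lt_trichotomy (f a) (f a') with h | h | h
      · have := x4 a' y1 h
        omega
      · exact h
      · have := y4 a x1 h
        omega
    have huniq2 : ∀ a b b', cons f S a b → cons f S a b' → b = b' := by
      intro a b b' h h'
      apply hf
      obtain ⟨x1, x2, x3, x4⟩ := h
      obtain ⟨y1, y2, y3, y4⟩ := h'
      exact le_antisymm (x4 b' y2 y3) (y4 b x2 x3)
    have hA1 : A.card ≤ 1 := by
      rw [Finset.card_le_one]
      have key : ∀ a b a' b', cons f S a b → R a e = 0 → R b e ≠ 0 → cons f S a' b' →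
          R a' e = 0 → R b' e ≠ 0 → ¬ f b < f b' := by
        intro a b a' b' g1 g2 g3 g4 g5 g6 hlt
        have h8 : f b ≤ f a' := by
          by_contra h9
          rw [not_le] at h9
          have := g4.2.2.2 b g1.2.1 h9
          omega
        exact hZ b a' b' h8 g4.2.2.1.le e g3 g6 g5
      intro κ hκ κ' hκ'
      obtain ⟨a, b, rfl, g1, g2, g3⟩ := (hA κ).1 hκ
      obtain ⟨a', b', rfl, g4, g5, g6⟩ := (hA κ').1 hκ'
      have hb : b = b' := by
        apply hf
        have k1 := key a b a' b' g1 g2 g3 g4 g5 g6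
        have k2 := key a' b' a b g4 g5 g6 g1 g2 g3
        omega
      subst hb
      rw [huniq1 a a' b g1 g4]
    have hA2 : A'.card ≤ 1 := by
      rw [Finset.card_le_one]
      have key : ∀ a b a' b', cons f S a b → R a e ≠ 0 → R b e = 0 → cons f S a' b' →
          R a' e ≠ 0 → R b' e = 0 → ¬ f a < f a' := by
        intro a b a' b' g1 g2 g3 g4 g5 g6 hlt
        have h8 : f b ≤ f a' := g1.2.2.2 a' g4.1 hlt
        exact hZ a b a' g1.2.2.1.le h8 e g2 g5 g3
      intro κ hκ κ' hκ'
      obtain ⟨a, b, rfl, g1, g2, g3⟩ := (hA' κ).1 hκ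
      obtain ⟨a', b', rfl, g4, g5, g6⟩ := (hA' κ').1 hκ'
      have hb : a = a' := by
        apply hf
        have k1 := key a b a' b' g1 g2 g3 g4 g5 g6
        have k2 := key a' b' a b g4 g5 g6 g1 g2 g3
        omega
      subst hb
      rw [huniq2 a b b' g1 g4]
    have h8 := Finset.card_le_card hsub
    have h9 := Finset.card_union_le A A'
    omega
  · -- strong induction
    have key : ∀ n : ℕ, ∀ y ∈ Sup E, (∀ v, bd y v ≠ 0 → v ∈ S) → (∀ v, bd y v ≠ 0 → f v < n) →
        y ∈ Cyc E ⊔ Submodule.span (ZMod 2) (p '' (J : Set (Sym2 V))) := by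
      intro n
      induction n with
      | zero =>
        intro y hy h1 h2
        apply Submodule.mem_sup_left
        rw [mem_Cyc]
        refine ⟨hy, fun v => ?_⟩
        by_contra h
        exact absurd (h2 v h) (Nat.not_lt_zero _)
      | succ n ih =>
        intro y hy h1 h2
        by_cases hex : ∃ s, bd y s ≠ 0 ∧ f s = n
        · obtain ⟨s, hs, hsn⟩ := hex
          have hpar := parity hE hy (univ.filter (fun v => conn E v s)) (by
            intro a b hab
            simp only [mem_filter, mem_univ, true_and]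
            exact ⟨fun h => conn_trans (conn_symm (conn_edge hE hab)) h,
              fun h => conn_trans (conn_edge hE hab) h⟩)
          obtain ⟨a, ha1, ha2, ha3⟩ : ∃ a, a ≠ s ∧ conn E a s ∧ bd y a ≠ 0 := by
            by_contra hcon
            push Not at hcon
            rw [Finset.sum_eq_single s] at hpar
            · exact hs hpar
            · intro v hv hvs
              rw [mem_filter] at hv
              exact hcon v hvs hv.2
            · intro h
              exact absurd (by simp [conn_refl]) h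
          have hra : f a < f s := by
            have g1 := h2 a ha3
            have g2 : f a ≠ f s := fun h => ha1 (hf h)
            omega
          -- the predecessor of `s`
          obtain ⟨t, ht, hmax⟩ := Finset.exists_max_image (S.filter (fun w => f w < f s)) f
            ⟨a, mem_filter.2 ⟨h1 a ha3, hra⟩⟩
          rw [mem_filter] at ht
          have hat : f a ≤ f t := hmax a (mem_filter.2 ⟨h1 a ha3, hra⟩)
          have hcons : cons f S t s := by
            refine ⟨ht.1, h1 s hs, ht.2, ?_⟩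
            intro w hw htw
            by_contra hcon
            rw [not_le] at hcon
            have := hmax w (mem_filter.2 ⟨hw, hcon⟩)
            omega
          have hroot : ρ t = ρ s := by
            have g1 := hcn a s ha2
            rw [hρ a t s hat ht.2.le g1, g1]
          have hκ : s(t, s) ∈ J := (hJ _).2 ⟨t, s, rfl, hcons, hroot⟩
          obtain ⟨g4, g5⟩ := hpJ _ hκ
          rw [bd_de (hne t s hcons)] at g5
          have hval : ∀ v, bd (y + p s(t, s)) v =
              bd y v + ((if v = t then 1 else 0) + (if v = s then 1 else 0)) := by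
            intro v
            rw [map_add, g5, Pi.add_apply, Pi.add_apply, iv_apply, iv_apply]
          have h3 := ih (y + p s(t, s)) (Submodule.add_mem _ hy g4) (by
            intro v hv
            by_cases hv1 : v = t
            · rw [hv1]; exact ht.1
            by_cases hv2 : v = s
            · rw [hv2]; exact h1 s hs
            apply h1
            rw [hval v, if_neg hv1, if_neg hv2, add_zero, add_zero] at hv
            exact hv) (by
            intro v hv
            by_cases hv1 : v = t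
            · rw [hv1]; omega
            by_cases hv2 : v = s
            · exfalso
              rw [hval v, if_neg hv1, if_pos hv2, zero_add, hv2, ne_zero_iff_one.1 hs] at hv
              exact hv (self_add _)
            rw [hval v, if_neg hv1, if_neg hv2, add_zero, add_zero] at hv
            have g6 := h2 v hv
            have g7 : f v ≠ f s := fun h => hv2 (hf h)
            omega)
          have h4 : p s(t, s) ∈ Cyc E ⊔ Submodule.span (ZMod 2) (p '' (J : Set (Sym2 V))) :=
            Submodule.mem_sup_right (Submodule.subset_span ⟨_, by exact_mod_cast hκ, rfl⟩)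
          have h5 := Submodule.add_mem _ h3 h4
          rw [add_assoc, self_add_v, add_zero] at h5
          exact h5
        · apply ih y hy h1
          intro v hv
          have g1 := h2 v hv
          have g2 : f v ≠ n := fun h => hex ⟨v, hv, h⟩
          omega
    intro y hy h1
    exact key (univ.sup f + 1) y hy h1 (fun v _ => by
      have : f v ≤ univ.sup f := Finset.le_sup (mem_univ v)
      omega)

theorem main2 {G : SimpleGraph V} {b N : ℕ} (B : ℕ → Finset V)
    (hedge : ∀ u v, G.Adj u v → ∃ i < N, u ∈ B i ∧ v ∈ B i)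
    (hclique : ∀ i < N, ∀ u ∈ old B i, ∀ v ∈ old B i, u ≠ v → G.Adj u v)
    (hrun : ∀ i < N, (old B i).Nonempty → ∃ p < i, old B i ⊆ B p)
    (hpart : ∀ i < N, SpanPly (Cyc (nw G N B i)) b) :
    SpanPly (Cyc G.edgeSet) (b + 5) := by
  have hJp : ∀ i, ∃ (J : Finset (Sym2 V)) (p : Sym2 V → W V),
      (∀ e, (J.filter (fun κ => p κ e ≠ 0)).card ≤ 2) ∧
      (∀ κ ∈ J, i < N) ∧
      (∀ κ ∈ J, ∃ a ∈ old B i, ∃ b ∈ old B i, a ≠ b ∧ κ = s(a, b)) ∧
      (∀ κ ∈ J, p κ ∈ Sup (nw G N B i) ∧ bd (p κ) = bd (de κ)) ∧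
      ∀ y ∈ Sup (nw G N B i), (∀ v, bd y v ≠ 0 → v ∈ old B i) →
        y ∈ Cyc (nw G N B i) ⊔ Submodule.span (ZMod 2) (p '' (J : Set (Sym2 V))) := by
    intro i
    by_cases hne : (nw G N B i).Nonempty
    · have hi : i < N := by
        obtain ⟨e, he⟩ := hne
        exact he.1
      obtain ⟨J, p, h2, h3, h1, h4⟩ := rel2 (nw_diag (G := G) (N := N) (B := B) (i := i)) (old B i)
      exact ⟨J, p, h1, fun _ _ => hi, h2, h3, h4⟩
    · refine ⟨∅, 0, by simp, by simp, by simp, by simp, ?_⟩
      intro y hy _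
      have : y = 0 := by
        funext e
        exact hy e (fun he => hne ⟨e, he⟩)
      rw [this]
      exact Submodule.zero_mem _
  choose J p hJ1 hJ2 hJ3 hJ4 hJ5 using hJp
  have hCp : ∀ i, ∃ C : Finset (W V), Submodule.span (ZMod 2) (C : Set (W V)) = Cyc (nw G N B i) ∧
      ∀ e : Sym2 V, (C.filter (fun x => x e ≠ 0)).card ≤ b := by
    intro i
    by_cases hi : i < N
    · exact hpart i hi
    · obtain ⟨C, h1, h2⟩ := small (nw_diag (G := G) (N := N) (B := B) (i := i)) (B := ∅)
        (fun e he => absurd he.1 hi)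
      exact ⟨C, h1, fun e => (h2 e).trans (by simp)⟩
  choose C hC1 hC2 using hCp
  have hU : (⋃ j ∈ {j | j < N}, nw G N B j) = G.edgeSet := by
    ext e
    simp only [Set.mem_setOf_eq, Set.mem_iUnion]
    constructor
    · rintro ⟨i, -, he⟩
      exact he.2.1
    · intro he
      obtain ⟨i, hi, hiB⟩ : ∃ i < N, ∀ v ∈ e, v ∈ B i := by
        induction e with
        | _ u v =>
          obtain ⟨i, hi, h1, h2⟩ := hedge u v he
          refine ⟨i, hi, fun w hw => ?_⟩
          rw [Sym2.mem_iff] at hw
          rcases hw with rfl | rfl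
          · exact h1
          · exact h2
      obtain ⟨j, hj, hj2⟩ := nw_find he hi hiB
      exact ⟨j, hj.trans_lt hi, hj2⟩
  rw [← hU]
  refine assemble N b 2 (nw G N B) J p C ?_ ?_ hJ4 hC1 hC2 ?_ (fun i e _ => hJ1 i e)
  · -- disjoint
    intro i j e hi hj
    rcases lt_trichotomy i j with h | h | h
    · exact absurd hi.2.2.1 (hj.2.2.2 i h)
    · exact h
    · exact absurd hj.2.2.1 (hi.2.2.2 j h)
  · -- the pairs are earlier edges
    intro i κ hκ
    have hi := hJ2 i κ hκ
    obtain ⟨u, hu, v, hv, huv, rfl⟩ := hJ3 i κ hκ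
    obtain ⟨q, hq, hqB⟩ := hrun i hi ⟨u, hu⟩
    have hadj := hclique i hi u hu v hv huv
    obtain ⟨j, hj, hj2⟩ := nw_find (G := G) (N := N) (B := B) (e := s(u, v)) hadj (hq.trans hi)
      (fun w hw => by
        rw [Sym2.mem_iff] at hw
        rcases hw with rfl | rfl
        · exact hqB hu
        · exact hqB hv)
    exact ⟨j, hj.trans_lt hq, hj2⟩
  · intro i x hx
    apply hJ5 i _ (res_mem _ _)
    intro v hv
    rw [mem_Cyc] at hx
    rw [mem_old]
    constructor
    · by_contra hvB
      apply hv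
      rw [bd_apply]
      apply Finset.sum_eq_zero
      intro e he
      rw [mem_filter] at he
      rw [res_apply, if_neg]
      intro h
      exact hvB (h.2.2.1 v he.2)
    · by_contra hno
      apply hv
      rw [← hx.2 v, bd_apply, bd_apply]
      apply Finset.sum_congr rfl
      intro e he
      rw [mem_filter] at he
      rw [res_apply]
      split_ifs with h
      · rfl
      · symm
        apply hx.1
        intro h2
        simp only [Set.mem_setOf_eq, Set.mem_iUnion] at h2
        obtain ⟨j, hj, hj2⟩ := h2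
        rcases Nat.lt_succ_iff_lt_or_eq.1 hj with h3 | h3
        · exact hno ⟨j, h3, hj2.2.2.1 v he.2⟩
        · subst h3
          exact h hj2

theorem treeMain2 {ι : Type} [Fintype ι] {G : SimpleGraph V} {T : SimpleGraph ι} (hT : T.IsTree)
    (B : ι → Finset V) (hconn : ∀ v, (T.induce {x | v ∈ B x}).Preconnected)
    (hedge : ∀ u v, G.Adj u v → ∃ x, u ∈ B x ∧ v ∈ B x)
    (hclique : ∀ x y, T.Adj x y → ∀ u v, u ∈ B x → v ∈ B x → u ∈ B y → v ∈ B y → u ≠ v →
      G.Adj u v) {b : ℕ}
    (hpart : ∀ x, ∀ E : Set (Sym2 V), E ⊆ G.edgeSet → (∀ e ∈ E, ∀ v ∈ e, v ∈ B x) →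
      SpanPly (Cyc E) b) : SpanPly (Cyc G.edgeSet) (b + 5) := by
  obtain ⟨N, nd, hnd, hrun⟩ := tree_order hT B hconn
  have hpar : ∀ i < N, (old (fun i => B (nd i)) i).Nonempty → ∃ p < i, T.Adj (nd i) (nd p) ∧
      old (fun i => B (nd i)) i ⊆ B (nd p) := by
    rintro i hi ⟨v, hv⟩
    rw [mem_old] at hv
    obtain ⟨p, hp, h1, h2⟩ := hrun i hi ⟨v, hv.1, hv.2⟩
    refine ⟨p, hp, h1, ?_⟩
    intro u hu
    rw [mem_old] at hu
    exact h2 u hu.1 hu.2
  have hcl : ∀ i < N, ∀ u ∈ old (fun i => B (nd i)) i, ∀ v ∈ old (fun i => B (nd i)) i, u ≠ v →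
      G.Adj u v := by
    intro i hi u hu v hv huv
    obtain ⟨p, hp, h1, h2⟩ := hpar i hi ⟨u, hu⟩
    exact hclique _ _ h1 u v (mem_old.1 hu).1 (mem_old.1 hv).1 (h2 hu) (h2 hv) huv
  apply main2 (N := N) (fun i => B (nd i))
  · intro u v huv
    obtain ⟨x, hu, hv⟩ := hedge u v huv
    obtain ⟨i, hi, rfl⟩ := hnd x
    exact ⟨i, hi, hu, hv⟩
  · exact hcl
  · intro i hi hne
    obtain ⟨p, hp, -, h2⟩ := hpar i hi hne
    exact ⟨p, hp, h2⟩
  · intro i hi
    exact hpart (nd i) _ (fun e he => he.2.1) (fun e he => he.2.2.1)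

end Pool.Agent.K9h11.BN
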